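import Mathlib

set_option autoImplicit false

/-!
# The homology of a tensor product of two complexes of vector spaces with one-dimensional homology

The complexes are vector spaces with an operator of square zero, and a sign operator on the first one.
-/

open TensorProduct

namespace Pool.Agent.V7H23.SG

section

variable {K : Type*} [Field K] {V : Type*} [AddCommGroup V] [Module K V] {W : Type*}
  [AddCommGroup W] [Module K W]

/-- The homology of the operator `d` of square zero is spanned by the class of `v`, on which the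
functional `e` is one. -/
structure OneHom (d : V →ₗ[K] V) (v : V) (e : V →ₗ[K] K) : Prop where
  sq : ∀ x, d (d x) = 0
  cyc : d v = 0
  one : e v = 1
  kill : ∀ x, e (d x) = 0
  ex : ∀ x, d x = 0 → e x = 0 → ∃ y, d y = x

theorem exists_pinv (d : V →ₗ[K] V) : ∃ T : V →ₗ[K] V, ∀ x, d (T (d x)) = d x := by
  obtain ⟨s, hs⟩ := LinearMap.exists_rightInverse_of_surjective d.rangeRestrict
    (LinearMap.range_eq_top.2 d.surjective_rangeRestrict)
  obtain ⟨T, hT⟩ := LinearMap.exists_extend s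
  refine ⟨T, fun x => ?_⟩
  have h1 : T (d x) = s (d.rangeRestrict x) := by
    have := LinearMap.congr_fun hT (d.rangeRestrict x)
    exact this
  rw [h1]
  have h2 := LinearMap.congr_fun hs (d.rangeRestrict x)
  exact congrArg Subtype.val h2

/-- A contracting homotopy. -/
theorem OneHom.homotopy0 {d : V →ₗ[K] V} {v : V} {e : V →ₗ[K] K} (h : OneHom d v e) :
    ∃ (s : V →ₗ[K] V) (f : V →ₗ[K] K), (∀ x, d (s x) + s (d x) = x - f x • v) := by
  obtain ⟨T, hT⟩ := exists_pinv d
  set q : V →ₗ[K] V := LinearMap.id - T ∘ₗ d with hq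
  set r : V →ₗ[K] V := LinearMap.id - e.smulRight v with hr
  have hTd : ∀ x, d (T (d x)) = d x := hT
  have hqx : ∀ x, q x = x - T (d x) := fun x => rfl
  have hrx : ∀ x, r x = x - e x • v := fun x => rfl
  refine ⟨T ∘ₗ r ∘ₗ q, e ∘ₗ q, fun x => ?_⟩
  have h1 : d (q x) = 0 := by rw [hqx, map_sub, hTd, sub_self]
  have h2 : d (r (q x)) = 0 := by rw [hrx, map_sub, map_smul, h.cyc, smul_zero, sub_zero, h1]
  have h3 : e (r (q x)) = 0 := by
    rw [hrx, map_sub, map_smul, h.one, smul_eq_mul, mul_one, sub_self]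
  obtain ⟨y, hy⟩ := h.ex _ h2 h3
  have h4 : d (T (r (q x))) = r (q x) := by rw [← hy, hTd]
  have h5 : q (d x) = d x := by rw [hqx, h.sq, map_zero, sub_zero]
  have h6 : r (d x) = d x := by rw [hrx, h.kill, zero_smul, sub_zero]
  change d (T (r (q x))) + T (r (q (d x))) = x - e (q x) • v
  rw [h4, h5, h6, hrx, hqx]
  abel

variable [NeZero (2 : K)]

/-- A contracting homotopy which anticommutes with the sign operator. -/
theorem OneHom.homotopy {d γ : V →ₗ[K] V} {v : V} {e : V →ₗ[K] K} (h : OneHom d v e)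
    (hγ : ∀ x, γ (γ x) = x) (hd : ∀ x, γ (d x) = - d (γ x)) (hv : ∃ η : K, γ v = η • v) :
    ∃ (s : V →ₗ[K] V) (f : V →ₗ[K] K), (∀ x, d (s x) + s (d x) = x - f x • v) ∧
      ∀ x, γ (s x) = - s (γ x) := by
  obtain ⟨s, f, hs⟩ := h.homotopy0
  obtain ⟨η, hη⟩ := hv
  have h2 : (2 : K) ≠ 0 := NeZero.ne _
  refine ⟨(2 : K)⁻¹ • (s - γ ∘ₗ s ∘ₗ γ), (2 : K)⁻¹ • (f + η • (f ∘ₗ γ)), fun x => ?_, fun x => ?_⟩
  · have h3 := hs x
    have h4 := congrArg γ (hs (γ x))
    rw [map_add, map_sub, map_smul, hη, hγ, hd] at h4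
    have h5 : d (γ x) = - γ (d x) := by rw [hd, neg_neg]
    rw [h5, map_neg, map_neg] at h4
    change d ((2 : K)⁻¹ • (s x - γ (s (γ x)))) + (2 : K)⁻¹ • (s (d x) - γ (s (γ (d x)))) =
      x - ((2 : K)⁻¹ • (f x + η • f (γ x))) • v
    have h6 : d (s x) + s (d x) + (-d (γ (s (γ x))) + -γ (s (γ (d x)))) =
        (x - f x • v) + (x - f (γ x) • η • v) := by rw [h3, h4]
    have h7 : d ((2 : K)⁻¹ • (s x - γ (s (γ x)))) + (2 : K)⁻¹ • (s (d x) - γ (s (γ (d x)))) =
        (2 : K)⁻¹ • (d (s x) + s (d x) + (-d (γ (s (γ x))) + -γ (s (γ (d x))))) := by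
      rw [map_smul, ← smul_add, map_sub]
      congr 1
      abel
    rw [h7, h6]
    have h8 : (x - f x • v) + (x - f (γ x) • η • v) =
        (2 : K) • x - (f x + η • f (γ x)) • v := by
      rw [two_smul, add_smul, smul_smul, smul_eq_mul, mul_comm (f (γ x)) η]
      abel
    rw [h8, smul_sub, smul_smul, inv_mul_cancel₀ h2, one_smul, smul_assoc]
  · change γ ((2 : K)⁻¹ • (s x - γ (s (γ x)))) = - ((2 : K)⁻¹ • (s (γ x) - γ (s (γ (γ x)))))
    rw [map_smul, map_sub, hγ, hγ, ← smul_neg, neg_sub]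

/-- The operator of the tensor product. -/
noncomputable def tot (d γ : V →ₗ[K] V) (δ : W →ₗ[K] W) : V ⊗[K] W →ₗ[K] V ⊗[K] W :=
  TensorProduct.map d LinearMap.id + TensorProduct.map γ δ

omit [NeZero (2 : K)] in
theorem tot_tmul (d γ : V →ₗ[K] V) (δ : W →ₗ[K] W) (x : V) (y : W) :
    tot d γ δ (x ⊗ₜ y) = d x ⊗ₜ y + γ x ⊗ₜ δ y := rfl

/-- The functional of the tensor product. -/
noncomputable def totF (e : V →ₗ[K] K) (f : W →ₗ[K] K) : V ⊗[K] W →ₗ[K] K :=
  (TensorProduct.lid K K).toLinearMap ∘ₗ TensorProduct.map e f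

omit [NeZero (2 : K)] in
theorem totF_tmul (e : V →ₗ[K] K) (f : W →ₗ[K] K) (x : V) (y : W) :
    totF e f (x ⊗ₜ y) = e x * f y := rfl

/-- **Künneth.** -/
theorem OneHom.tot {d γ : V →ₗ[K] V} {v : V} {e : V →ₗ[K] K} (h : OneHom d v e)
    (hγ : ∀ x, γ (γ x) = x) (hd : ∀ x, γ (d x) = - d (γ x)) (hv : ∃ η : K, γ v = η • v)
    {δ : W →ₗ[K] W} {w : W} {f : W →ₗ[K] K} (h' : OneHom δ w f) :
    OneHom (tot d γ δ) (v ⊗ₜ[K] w) (totF e f) := by
  obtain ⟨s, e', hs, hsγ⟩ := h.homotopy hγ hd hv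
  obtain ⟨η, hη⟩ := hv
  have hη2 : η * η = 1 := by
    have h1 := hγ v
    rw [hη, map_smul, hη, smul_smul] at h1
    have h2 := congrArg e h1
    rwa [map_smul, h.one, smul_eq_mul, mul_one] at h2
  have sq : ∀ z, Pool.Agent.V7H23.SG.tot d γ δ (Pool.Agent.V7H23.SG.tot d γ δ z) = 0 := by
    intro z
    induction z using TensorProduct.induction_on with
    | zero => rw [map_zero, map_zero]
    | add a b ha hb => rw [map_add, map_add, ha, hb, add_zero]
    | tmul x y =>
      rw [tot_tmul, map_add, tot_tmul, tot_tmul, h.sq, h'.sq, hd, zero_tmul, tmul_zero,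
        neg_tmul]
      abel
  refine ⟨sq, ?_, ?_, ?_, ?_⟩
  · rw [tot_tmul, h.cyc, h'.cyc, zero_tmul, tmul_zero, add_zero]
  · rw [totF_tmul, h.one, h'.one, one_mul]
  · intro z
    induction z using TensorProduct.induction_on with
    | zero => rw [map_zero, map_zero]
    | add a b ha hb => rw [map_add, map_add, ha, hb, add_zero]
    | tmul x y =>
      rw [tot_tmul, map_add, totF_tmul, totF_tmul, h.kill, h'.kill, zero_mul, mul_zero, add_zero]
  · intro z hz hez
    -- the homotopy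
    set S : V ⊗[K] W →ₗ[K] V ⊗[K] W := TensorProduct.map s LinearMap.id with hS
    set E : V ⊗[K] W →ₗ[K] W := (TensorProduct.lid K W).toLinearMap ∘ₗ
      TensorProduct.map e' LinearMap.id with hE
    have key : ∀ z, Pool.Agent.V7H23.SG.tot d γ δ (S z) + S (Pool.Agent.V7H23.SG.tot d γ δ z) =
        z - v ⊗ₜ (E z) := by
      intro z
      induction z using TensorProduct.induction_on with
      | zero => simp
      | add a b ha hb =>
        rw [map_add, map_add, map_add, map_add, map_add, tmul_add]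
        rw [add_add_add_comm, ha, hb]
        abel
      | tmul x y =>
        have h1 : S (x ⊗ₜ y) = s x ⊗ₜ y := rfl
        have h2 : S (d x ⊗ₜ y) = s (d x) ⊗ₜ y := rfl
        have h3 : S (γ x ⊗ₜ δ y) = s (γ x) ⊗ₜ δ y := rfl
        have h4 : E (x ⊗ₜ y) = e' x • y := rfl
        rw [h1, tot_tmul, tot_tmul, map_add, h2, h3, h4, hsγ, neg_tmul]
        have h5 : d (s x) ⊗ₜ[K] y + -(s (γ x) ⊗ₜ[K] δ y) + (s (d x) ⊗ₜ[K] y + s (γ x) ⊗ₜ[K] δ y)
            = (d (s x) + s (d x)) ⊗ₜ[K] y := by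
          rw [add_tmul]; abel
        rw [h5, hs, sub_tmul, smul_tmul]
    have k1 := key z
    rw [hz, map_zero, add_zero] at k1
    -- `E z` is a cycle
    have k2 : Pool.Agent.V7H23.SG.tot d γ δ (v ⊗ₜ (E z)) = 0 := by
      have := congrArg (Pool.Agent.V7H23.SG.tot d γ δ) k1
      rw [sq, map_sub, hz, zero_sub] at this
      exact (neg_eq_zero.1 this.symm)
    rw [tot_tmul, h.cyc, zero_tmul, zero_add, hη] at k2
    have k3 : δ (E z) = 0 := by
      have := congrArg ((TensorProduct.lid K W).toLinearMap ∘ₗ TensorProduct.map e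
        (LinearMap.id : W →ₗ[K] W)) k2
      rw [map_zero] at this
      have h6 : ((TensorProduct.lid K W).toLinearMap ∘ₗ TensorProduct.map e
        (LinearMap.id : W →ₗ[K] W)) ((η • v) ⊗ₜ δ (E z)) = e (η • v) • δ (E z) := rfl
      rw [h6, map_smul, h.one, smul_eq_mul, mul_one] at this
      have h7 := congrArg (fun t => η • t) this
      simp only [smul_smul, hη2, one_smul, smul_zero] at h7
      exact h7
    have k4 : f (E z) = 0 := by
      have h8 : totF e f (v ⊗ₜ (E z)) = 0 := by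
        have h9 : v ⊗ₜ (E z) = z - Pool.Agent.V7H23.SG.tot d γ δ (S z) := by
          rw [k1]; abel
        rw [h9, map_sub, hez]
        have : totF e f (Pool.Agent.V7H23.SG.tot d γ δ (S z)) = 0 := by
          generalize S z = z'
          induction z' using TensorProduct.induction_on with
          | zero => rw [map_zero, map_zero]
          | add a b ha hb => rw [map_add, map_add, ha, hb, add_zero]
          | tmul x y =>
            rw [tot_tmul, map_add, totF_tmul, totF_tmul, h.kill, h'.kill, zero_mul, mul_zero,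
              add_zero]
        rw [this, sub_zero]
      rwa [totF_tmul, h.one, one_mul] at h8
    obtain ⟨w', hw'⟩ := h'.ex _ k3 k4
    refine ⟨S z + η • (v ⊗ₜ w'), ?_⟩
    rw [map_add, k1, map_smul, tot_tmul, h.cyc, zero_tmul, zero_add, hη, hw', smul_tmul',
      smul_smul, hη2, one_smul]
    abel

end

end Pool.Agent.V7H23.SG
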