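import Pool.Agent.V7H23.SG.Defs
import Pool.Agent.V7H23.SG.Kun

set_option autoImplicit false

/-!
# The product of two complexes over group algebras
-/

open scoped Matrix TensorProduct
open Module

universe u

namespace Pool.Agent.V7H23.SG

variable {G : Type u} [Group G] {H : Type u} [Group H]

/-- the inclusion of the group algebra of `G` in the group algebra of `G × H` -/
noncomputable def i1 : MonoidAlgebra ℂ G →ₐ[ℂ] MonoidAlgebra ℂ (G × H) :=
  MonoidAlgebra.mapDomainAlgHom ℂ ℂ (MonoidHom.inl G H)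

/-- the inclusion of the group algebra of `H` in the group algebra of `G × H` -/
noncomputable def i2 : MonoidAlgebra ℂ H →ₐ[ℂ] MonoidAlgebra ℂ (G × H) :=
  MonoidAlgebra.mapDomainAlgHom ℂ ℂ (MonoidHom.inr G H)

theorem i1_single (g : G) (c : ℂ) : (i1 (MonoidAlgebra.single g c) : MonoidAlgebra ℂ (G × H)) =
    MonoidAlgebra.single (g, 1) c := by
  simp [i1]

theorem i2_single (h : H) (c : ℂ) : (i2 (MonoidAlgebra.single h c) : MonoidAlgebra ℂ (G × H)) =
    MonoidAlgebra.single (1, h) c := by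
  simp [i2]

theorem comm (α : MonoidAlgebra ℂ G) (β : MonoidAlgebra ℂ H) :
    (i1 α * i2 β : MonoidAlgebra ℂ (G × H)) = i2 β * i1 α := by
  induction α using MonoidAlgebra.induction_linear with
  | zero => simp
  | add a b ha hb => rw [map_add, add_mul, mul_add, ha, hb]
  | single g c =>
    induction β using MonoidAlgebra.induction_linear with
    | zero => simp
    | add a b ha hb => rw [map_add, add_mul, mul_add, ha, hb]
    | single h e =>
      rw [i1_single, i2_single, MonoidAlgebra.single_mul_single, MonoidAlgebra.single_mul_single]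
      simp [mul_comm]

theorem aug_single (g : G) (c : ℂ) : aug (MonoidAlgebra.single g c) = c := by
  unfold aug
  rw [MonoidAlgebra.coeff_single, Finsupp.sum_single_index rfl]

theorem aug_add (α β : MonoidAlgebra ℂ G) : aug (α + β) = aug α + aug β := by
  classical
  unfold aug
  rw [MonoidAlgebra.coeff_add, Finsupp.sum_add_index (fun _ _ => rfl) (fun _ _ _ _ => rfl)]

theorem aug_zero : aug (0 : MonoidAlgebra ℂ G) = 0 := by
  unfold aug
  simp

theorem aug_smul (c : ℂ) (α : MonoidAlgebra ℂ G) : aug (c • α) = c * aug α := by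
  induction α using MonoidAlgebra.induction_linear with
  | zero => simp [aug_zero]
  | add a b ha hb => rw [smul_add, aug_add, aug_add, ha, hb, mul_add]
  | single g e => rw [MonoidAlgebra.smul_single, aug_single, aug_single, smul_eq_mul]

theorem aug_prod (α : MonoidAlgebra ℂ G) (β : MonoidAlgebra ℂ H) :
    aug (i1 α * i2 β : MonoidAlgebra ℂ (G × H)) = aug α * aug β := by
  induction α using MonoidAlgebra.induction_linear with
  | zero => simp [aug_zero]
  | add a b ha hb => rw [map_add, add_mul, aug_add, aug_add, ha, hb, add_mul]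
  | single g c =>
    induction β using MonoidAlgebra.induction_linear with
    | zero => simp [aug_zero]
    | add a b ha hb => rw [map_add, mul_add, aug_add, aug_add, ha, hb, mul_add]
    | single h e =>
      rw [i1_single, i2_single, MonoidAlgebra.single_mul_single, aug_single, aug_single,
        aug_single]

section basis

/-- the coefficients -/
noncomputable def cl : MonoidAlgebra ℂ G ≃ₗ[ℂ] (G →₀ ℂ) :=
  { MonoidAlgebra.coeffAddEquiv with map_smul' := fun _ _ => rfl }

/-- the basis of the group algebra -/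
noncomputable def bG : Basis G ℂ (MonoidAlgebra ℂ G) := Basis.ofRepr cl

theorem bG_apply (g : G) : bG g = MonoidAlgebra.single g 1 := by
  rfl

variable {ι κ : Type} [Fintype ι] [Fintype κ]

/-- the equivalence of the index sets -/
def ee (G H : Type u) (ι κ : Type) : (Σ _ : ι, G) × (Σ _ : κ, H) ≃ Σ _ : ι × κ, G × H where
  toFun := fun p => ⟨(p.1.1, p.2.1), (p.1.2, p.2.2)⟩
  invFun := fun q => (⟨q.1.1, q.2.1⟩, ⟨q.1.2, q.2.2⟩)
  left_inv := fun _ => rfl
  right_inv := fun _ => rfl

open Classical in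
/-- the isomorphism -/
noncomputable def Phi : (ι → MonoidAlgebra ℂ G) ⊗[ℂ] (κ → MonoidAlgebra ℂ H) ≃ₗ[ℂ]
    (ι × κ → MonoidAlgebra ℂ (G × H)) :=
  ((Pi.basis fun _ : ι => (bG : Basis G ℂ (MonoidAlgebra ℂ G))).tensorProduct
    (Pi.basis fun _ : κ => (bG : Basis H ℂ (MonoidAlgebra ℂ H)))).equiv
    (Pi.basis fun _ : ι × κ => (bG : Basis (G × H) ℂ (MonoidAlgebra ℂ (G × H)))) (ee G H ι κ)

/-- the bilinear map -/
noncomputable def BB : (ι → MonoidAlgebra ℂ G) →ₗ[ℂ] (κ → MonoidAlgebra ℂ H) →ₗ[ℂ]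
    (ι × κ → MonoidAlgebra ℂ (G × H)) :=
  LinearMap.mk₂ ℂ (fun x y p => i1 (x p.1) * i2 (y p.2))
    (fun x x' y => by funext p; simp [add_mul])
    (fun c x y => by funext p; simp)
    (fun x y y' => by funext p; simp [mul_add])
    (fun c x y => by funext p; simp)

theorem BB_apply (x : ι → MonoidAlgebra ℂ G) (y : κ → MonoidAlgebra ℂ H) (p : ι × κ) :
    BB x y p = i1 (x p.1) * i2 (y p.2) := rfl

theorem Phi_tmul (x : ι → MonoidAlgebra ℂ G) (y : κ → MonoidAlgebra ℂ H) (p : ι × κ) :
    Phi (x ⊗ₜ[ℂ] y) p = i1 (x p.1) * i2 (y p.2) := by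
  classical
  have h : (Phi : (ι → MonoidAlgebra ℂ G) ⊗[ℂ] (κ → MonoidAlgebra ℂ H) ≃ₗ[ℂ]
      (ι × κ → MonoidAlgebra ℂ (G × H))).toLinearMap = TensorProduct.lift BB := by
    apply ((Pi.basis fun _ : ι => (bG : Basis G ℂ (MonoidAlgebra ℂ G))).tensorProduct
      (Pi.basis fun _ : κ => (bG : Basis H ℂ (MonoidAlgebra ℂ H)))).ext
    rintro ⟨⟨i, g⟩, ⟨j, k⟩⟩
    unfold Phi
    rw [LinearEquiv.coe_coe, Basis.equiv_apply, Basis.tensorProduct_apply, TensorProduct.lift.tmul]
    funext q
    rw [BB_apply]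
    simp only [Pi.basis_apply, ee, Equiv.coe_fn_mk, bG_apply]
    obtain ⟨i', j'⟩ := q
    by_cases hi : i' = i
    · subst hi
      by_cases hj : j' = j
      · subst hj
        simp only [Pi.single_eq_same]
        rw [i1_single, i2_single, MonoidAlgebra.single_mul_single]
        simp
      · rw [Pi.single_eq_of_ne (by simp [hj]), Pi.single_eq_same, Pi.single_eq_of_ne hj, map_zero,
          mul_zero]
    · rw [Pi.single_eq_of_ne (by simp [hi]), Pi.single_eq_of_ne hi, map_zero, zero_mul]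
  have h2 := LinearMap.congr_fun h (x ⊗ₜ[ℂ] y)
  rw [LinearEquiv.coe_coe, TensorProduct.lift.tmul] at h2
  rw [h2, BB_apply]

end basis

section ops

variable {ι κ : Type} [Fintype ι] [Fintype κ]

/-- the boundary operator -/
noncomputable def dR (M : Matrix ι ι (MonoidAlgebra ℂ G)) :
    (ι → MonoidAlgebra ℂ G) →ₗ[ℂ] (ι → MonoidAlgebra ℂ G) where
  toFun := fun x => x ᵥ* M
  map_add' := fun x y => Matrix.add_vecMul M x y
  map_smul' := fun c x => by
    funext i
    simp only [Matrix.vecMul, dotProduct, Pi.smul_apply, RingHom.id_apply, Finset.smul_sum,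
      smul_mul_assoc]

/-- the coboundary operator -/
noncomputable def dC (M : Matrix ι ι (MonoidAlgebra ℂ G)) :
    (ι → MonoidAlgebra ℂ G) →ₗ[ℂ] (ι → MonoidAlgebra ℂ G) where
  toFun := fun x => M *ᵥ x
  map_add' := fun x y => Matrix.mulVec_add M x y
  map_smul' := fun c x => by
    funext i
    simp only [Matrix.mulVec, dotProduct, Pi.smul_apply, RingHom.id_apply, Finset.smul_sum,
      mul_smul_comm]

/-- the sign operator -/
noncomputable def sg (deg : ι → ℕ) : (ι → MonoidAlgebra ℂ G) →ₗ[ℂ] (ι → MonoidAlgebra ℂ G) where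
  toFun := fun x i => (-1 : ℂ) ^ deg i • x i
  map_add' := fun x y => by funext i; simp
  map_smul' := fun c x => by
    funext i
    simp only [Pi.smul_apply, RingHom.id_apply]
    rw [smul_comm]

theorem dR_apply (M : Matrix ι ι (MonoidAlgebra ℂ G)) (x : ι → MonoidAlgebra ℂ G) :
    dR M x = x ᵥ* M := rfl

theorem dC_apply (M : Matrix ι ι (MonoidAlgebra ℂ G)) (x : ι → MonoidAlgebra ℂ G) :
    dC M x = M *ᵥ x := rfl

omit [Fintype ι] in
theorem sg_apply (deg : ι → ℕ) (x : ι → MonoidAlgebra ℂ G) (i : ι) :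
    sg deg x i = (-1 : ℂ) ^ deg i • x i := rfl

omit [Fintype ι] in
theorem sg_sg (deg : ι → ℕ) (x : ι → MonoidAlgebra ℂ G) : sg deg (sg deg x) = x := by
  funext i
  rw [sg_apply, sg_apply, smul_smul, ← pow_add, ← two_mul, pow_mul]
  norm_num

theorem sg_dR (M : Matrix ι ι (MonoidAlgebra ℂ G)) (deg : ι → ℕ)
    (h : ∀ i j, M i j ≠ 0 → deg i = deg j + 1) (x : ι → MonoidAlgebra ℂ G) :
    sg deg (dR M x) = - dR M (sg deg x) := by
  funext j
  rw [sg_apply, Pi.neg_apply, dR_apply, dR_apply]
  simp only [Matrix.vecMul, dotProduct, Finset.smul_sum, sg_apply]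
  rw [← Finset.sum_neg_distrib]
  refine Finset.sum_congr rfl fun i _ => ?_
  by_cases hij : M i j = 0
  · rw [hij, mul_zero, mul_zero, smul_zero, neg_zero]
  · rw [h i j hij, pow_succ, smul_mul_assoc]
    simp

theorem sg_dC (M : Matrix ι ι (MonoidAlgebra ℂ G)) (deg : ι → ℕ)
    (h : ∀ i j, M i j ≠ 0 → deg i = deg j + 1) (x : ι → MonoidAlgebra ℂ G) :
    sg deg (dC M x) = - dC M (sg deg x) := by
  funext i
  rw [sg_apply, Pi.neg_apply, dC_apply, dC_apply]
  simp only [Matrix.mulVec, dotProduct, Finset.smul_sum, sg_apply]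
  rw [← Finset.sum_neg_distrib]
  refine Finset.sum_congr rfl fun j _ => ?_
  by_cases hij : M i j = 0
  · rw [hij, zero_mul, zero_mul, smul_zero, neg_zero]
  · rw [h i j hij, pow_succ, mul_smul_comm]
    simp

open Classical in
/-- the matrix `M ⊗ 1 + (-1)^deg ⊗ N` of the boundary operator of the product of two complexes -/
noncomputable def pM (deg : ι → ℕ) (M : Matrix ι ι (MonoidAlgebra ℂ G))
    (N : Matrix κ κ (MonoidAlgebra ℂ H)) : Matrix (ι × κ) (ι × κ) (MonoidAlgebra ℂ (G × H)) :=
  fun p q => (if p.2 = q.2 then i1 (M p.1 q.1) else 0) +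
    (if p.1 = q.1 then (-1 : ℂ) ^ deg p.1 • i2 (N p.2 q.2) else 0)

theorem Phi_dR (deg : ι → ℕ) (M : Matrix ι ι (MonoidAlgebra ℂ G))
    (N : Matrix κ κ (MonoidAlgebra ℂ H))
    (z : (ι → MonoidAlgebra ℂ G) ⊗[ℂ] (κ → MonoidAlgebra ℂ H)) :
    Phi (tot (dR M) (sg deg) (dR N) z) = Phi z ᵥ* pM deg M N := by
  classical
  induction z using TensorProduct.induction_on with
  | zero => simp
  | add a b ha hb => rw [map_add, map_add, map_add, ha, hb, Matrix.add_vecMul]
  | tmul x y =>
    funext q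
    obtain ⟨i', j'⟩ := q
    rw [tot_tmul, map_add, Pi.add_apply, Phi_tmul, Phi_tmul]
    simp only [dR_apply, sg_apply, Matrix.vecMul, dotProduct, pM, Phi_tmul, mul_add,
      Finset.sum_add_distrib, Fintype.sum_prod_type, mul_ite, mul_zero, map_sum, map_smul]
    congr 1
    · rw [Finset.sum_mul]
      refine Finset.sum_congr rfl fun i _ => ?_
      rw [Finset.sum_ite_eq' Finset.univ j', if_pos (Finset.mem_univ _), map_mul, mul_assoc,
        mul_assoc, comm]
    · rw [Finset.sum_comm]
      simp only [Finset.sum_ite_eq', Finset.mem_univ, if_true]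
      rw [Finset.mul_sum]
      refine Finset.sum_congr rfl fun j _ => ?_
      rw [map_mul, smul_mul_assoc, mul_smul_comm, mul_assoc]

theorem Phi_dC (deg : ι → ℕ) (M : Matrix ι ι (MonoidAlgebra ℂ G))
    (N : Matrix κ κ (MonoidAlgebra ℂ H))
    (z : (ι → MonoidAlgebra ℂ G) ⊗[ℂ] (κ → MonoidAlgebra ℂ H)) :
    Phi (tot (dC M) (sg deg) (dC N) z) = pM deg M N *ᵥ Phi z := by
  classical
  induction z using TensorProduct.induction_on with
  | zero => simp
  | add a b ha hb => rw [map_add, map_add, map_add, ha, hb, Matrix.mulVec_add]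
  | tmul x y =>
    funext q
    obtain ⟨i', j'⟩ := q
    rw [tot_tmul, map_add, Pi.add_apply, Phi_tmul, Phi_tmul]
    simp only [dC_apply, sg_apply, Matrix.mulVec, dotProduct, pM, Phi_tmul, add_mul,
      Finset.sum_add_distrib, Fintype.sum_prod_type, ite_mul, zero_mul, map_sum, map_smul]
    congr 1
    · rw [Finset.sum_mul]
      refine Finset.sum_congr rfl fun i _ => ?_
      rw [Finset.sum_ite_eq Finset.univ j', if_pos (Finset.mem_univ _), map_mul, mul_assoc]
    · rw [Finset.sum_comm]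
      simp only [Finset.sum_ite_eq, Finset.mem_univ, if_true]
      rw [Finset.mul_sum]
      refine Finset.sum_congr rfl fun j _ => ?_
      rw [map_mul, smul_mul_assoc, smul_mul_assoc, ← mul_assoc, ← mul_assoc, comm (x i') (N j' j)]

end ops

end Pool.Agent.V7H23.SG
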