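import Pool.Agent.V7H23.AW.LO

set_option autoImplicit false

/-!
# Powers of polynomials with nonnegative coefficients
-/

open Polynomial

namespace Pool.Agent.V7H23.SG

/-- nonnegative coefficients -/
def NN (p : ℝ[X]) : Prop := ∀ k, 0 ≤ p.coeff k

theorem NN.mul {p q : ℝ[X]} (hp : NN p) (hq : NN q) : NN (p * q) := by
  intro k
  rw [coeff_mul]
  exact Finset.sum_nonneg fun x _ => mul_nonneg (hp _) (hq _)

theorem NN.one : NN 1 := by
  intro k
  rw [coeff_one]
  split_ifs <;> norm_num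

theorem NN.pow {p : ℝ[X]} (hp : NN p) (N : ℕ) : NN (p ^ N) := by
  induction N with
  | zero => rw [pow_zero]; exact NN.one
  | succ N ih => rw [pow_succ]; exact ih.mul hp

theorem NN.sum_le {V : ℝ[X]} (hV : NN V) (T : Finset ℕ) : ∑ b ∈ T, V.coeff b ≤ V.eval 1 := by
  have h1 : V.eval 1 = ∑ b ∈ V.support, V.coeff b := by
    rw [eval_eq_sum, sum_def]
    simp
  rw [h1]
  calc ∑ b ∈ T, V.coeff b ≤ ∑ b ∈ T ∪ V.support, V.coeff b :=
        Finset.sum_le_sum_of_subset_of_nonneg Finset.subset_union_left fun i _ _ => hV i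
    _ = ∑ b ∈ V.support, V.coeff b := by
        symm
        refine Finset.sum_subset Finset.subset_union_right fun i _ hi => ?_
        simpa using hi

theorem NN.eval_nonneg {V : ℝ[X]} (hV : NN V) : 0 ≤ V.eval 1 := by
  simpa using hV.sum_le ∅

theorem NN.coeff_le {V : ℝ[X]} (hV : NN V) (k : ℕ) : V.coeff k ≤ V.eval 1 := by
  simpa using hV.sum_le {k}

theorem coeff_mul_le (U V : ℝ[X]) (hV : NN V) (u : ℝ) (hu : 0 ≤ u) (h : ∀ k, U.coeff k ≤ u)
    (k : ℕ) : (U * V).coeff k ≤ u * V.eval 1 := by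
  rw [coeff_mul]
  have h1 : ∑ x ∈ Finset.HasAntidiagonal.antidiagonal k, V.coeff x.2 ≤ V.eval 1 := by
    have h2 : ∑ x ∈ Finset.HasAntidiagonal.antidiagonal k, V.coeff x.2 =
        ∑ b ∈ (Finset.HasAntidiagonal.antidiagonal k).image Prod.snd, V.coeff b := by
      rw [Finset.sum_image]
      intro x hx y hy hxy
      have hx' := Finset.HasAntidiagonal.mem_antidiagonal.1 (Finset.mem_coe.1 hx)
      have hy' := Finset.HasAntidiagonal.mem_antidiagonal.1 (Finset.mem_coe.1 hy)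
      ext
      · omega
      · exact hxy
    rw [h2]
    exact hV.sum_le _
  calc ∑ x ∈ Finset.HasAntidiagonal.antidiagonal k, U.coeff x.1 * V.coeff x.2 ≤
        ∑ x ∈ Finset.HasAntidiagonal.antidiagonal k, u * V.coeff x.2 :=
        Finset.sum_le_sum fun x _ => mul_le_mul_of_nonneg_right (h _) (hV _)
    _ = u * ∑ x ∈ Finset.HasAntidiagonal.antidiagonal k, V.coeff x.2 := by rw [Finset.mul_sum]
    _ ≤ _ := mul_le_mul_of_nonneg_left h1 hu

theorem coeff_mul_ge {p q : ℝ[X]} (hp : NN p) (hq : NN q) (a b : ℕ) :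
    p.coeff a * q.coeff b ≤ (p * q).coeff (a + b) := by
  rw [coeff_mul]
  refine Finset.single_le_sum (f := fun x : ℕ × ℕ => p.coeff x.1 * q.coeff x.2)
    (fun x _ => mul_nonneg (hp _) (hq _)) (a := (a, b)) ?_
  exact Finset.HasAntidiagonal.mem_antidiagonal.2 rfl

theorem coeff_pow_ge {p : ℝ[X]} (hp : NN p) (i N : ℕ) :
    (p.coeff i) ^ N ≤ (p ^ N).coeff (N * i) := by
  induction N with
  | zero => simp
  | succ N ih =>
    rw [pow_succ, pow_succ]
    calc p.coeff i ^ N * p.coeff i ≤ (p ^ N).coeff (N * i) * p.coeff i :=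
          mul_le_mul_of_nonneg_right ih (hp _)
      _ ≤ (p ^ N * p).coeff (N * i + i) := coeff_mul_ge (hp.pow N) hp _ _
      _ = _ := by rw [Nat.succ_mul]

theorem two_pow (i j : ℕ) (hij : i ≠ j) (M k : ℕ) :
    ((X ^ i + X ^ j : ℝ[X]) ^ M).coeff k ≤ 2 ^ M / √((M : ℝ) + 1) := by
  have h0 : ∀ m, ((X ^ i : ℝ[X]) ^ m * (X ^ j) ^ (M - m) * ((M.choose m : ℕ) : ℝ[X])).coeff k =
      if k = i * m + j * (M - m) then (M.choose m : ℝ) else 0 := by
    intro m
    rw [coeff_mul_natCast, ← pow_mul, ← pow_mul, ← pow_add, coeff_X_pow]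
    split_ifs <;> simp
  rw [add_pow, finsetSum_coeff, Finset.sum_congr rfl fun m _ => h0 m]
  by_cases h : ∃ m ∈ Finset.range (M + 1), k = i * m + j * (M - m)
  · obtain ⟨m, hm, hk⟩ := h
    rw [Finset.sum_eq_single_of_mem m hm]
    · rw [if_pos hk]
      exact Pool.Agent.V7H23.AW.choose_real M m
    · intro m' hm' hne
      rw [if_neg]
      intro hk'
      apply hne
      rw [Finset.mem_range] at hm hm'
      rw [hk] at hk'
      zify [Nat.lt_succ_iff.1 hm, Nat.lt_succ_iff.1 hm'] at hk'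
      have h2 : ((i : ℤ) - j) * ((m : ℤ) - m') = 0 := by linear_combination hk'
      rcases mul_eq_zero.1 h2 with h3 | h3
      · exact absurd (by omega) hij
      · omega
  · push Not at h
    rw [Finset.sum_eq_zero]
    · positivity
    · intro m hm
      rw [if_neg (h m hm)]

theorem amgm (M N : ℕ) : 1 / √((M : ℝ) + 1) ≤
    (√((N : ℝ) + 1) * (1 / ((M : ℝ) + 1)) + 1 / √((N : ℝ) + 1)) / 2 := by
  have hM : (0 : ℝ) < (M : ℝ) + 1 := by positivity
  have hN : (0 : ℝ) < (N : ℝ) + 1 := by positivity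
  have hs : 0 < √((N : ℝ) + 1) := Real.sqrt_pos.2 hN
  have hr : 0 < √((M : ℝ) + 1) := Real.sqrt_pos.2 hM
  have h1 : 1 / ((M : ℝ) + 1) = (1 / √((M : ℝ) + 1)) ^ 2 := by
    rw [div_pow, one_pow, Real.sq_sqrt hM.le]
  rw [h1]
  set x := 1 / √((M : ℝ) + 1)
  set t := √((N : ℝ) + 1)
  have h2 : 0 ≤ (t * x - 1) ^ 2 / t := by positivity
  have h3 : (t * x - 1) ^ 2 / t = t * x ^ 2 + 1 / t - 2 * x := by
    field_simp
    ring
  rw [h3] at h2
  linarith

theorem binom_sum (S R : ℝ) (hS : 0 < S) (hR : 0 ≤ R) (N : ℕ) :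
    ∑ M ∈ Finset.range (N + 1), (N.choose M : ℝ) * S ^ M * R ^ (N - M) / √((M : ℝ) + 1) ≤
      ((S + R) / S + 1) / 2 / √((N : ℝ) + 1) * (S + R) ^ N := by
  have hN : (0 : ℝ) < (N : ℝ) + 1 := by positivity
  have hs : 0 < √((N : ℝ) + 1) := Real.sqrt_pos.2 hN
  have h1 : ∑ M ∈ Finset.range (N + 1), (N.choose M : ℝ) * S ^ M * R ^ (N - M) / ((M : ℝ) + 1) ≤
      (S + R) ^ (N + 1) / (S * ((N : ℝ) + 1)) := by
    rw [le_div_iff₀ (by positivity), Finset.sum_mul, add_pow,
      Finset.sum_range_succ' (fun M => S ^ M * R ^ (N + 1 - M) * ((N + 1).choose M : ℝ))]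
    have h2 : ∀ M ∈ Finset.range (N + 1),
        (N.choose M : ℝ) * S ^ M * R ^ (N - M) / ((M : ℝ) + 1) * (S * ((N : ℝ) + 1)) =
        S ^ (M + 1) * R ^ (N + 1 - (M + 1)) * ((N + 1).choose (M + 1) : ℝ) := by
      intro M _
      have h3 : ((N : ℝ) + 1) * (N.choose M : ℝ) = ((N + 1).choose (M + 1) : ℝ) * ((M : ℝ) + 1) := by
        exact_mod_cast Nat.add_one_mul_choose_eq N M
      have h4 : N + 1 - (M + 1) = N - M := by omega
      rw [h4]
      have hM : (0 : ℝ) < (M : ℝ) + 1 := by positivity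
      rw [div_mul_eq_mul_div, div_eq_iff hM.ne']
      linear_combination (S ^ (M + 1) * R ^ (N - M)) * h3
    rw [Finset.sum_congr rfl h2]
    have h5 : 0 ≤ S ^ 0 * R ^ (N + 1 - 0) * ((N + 1).choose 0 : ℝ) := by positivity
    linarith
  have h6 : ∑ M ∈ Finset.range (N + 1), (N.choose M : ℝ) * S ^ M * R ^ (N - M) = (S + R) ^ N := by
    rw [add_pow]
    refine Finset.sum_congr rfl fun M _ => ?_
    ring
  have h7 : ∀ M ∈ Finset.range (N + 1),
      (N.choose M : ℝ) * S ^ M * R ^ (N - M) / √((M : ℝ) + 1) ≤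
      √((N : ℝ) + 1) / 2 * ((N.choose M : ℝ) * S ^ M * R ^ (N - M) / ((M : ℝ) + 1)) +
        1 / √((N : ℝ) + 1) / 2 * ((N.choose M : ℝ) * S ^ M * R ^ (N - M)) := by
    intro M _
    have h8 : 0 ≤ (N.choose M : ℝ) * S ^ M * R ^ (N - M) := by positivity
    have h9 := mul_le_mul_of_nonneg_left (amgm M N) h8
    calc _ = (N.choose M : ℝ) * S ^ M * R ^ (N - M) * (1 / √((M : ℝ) + 1)) := by ring
      _ ≤ _ := h9
      _ = _ := by ring
  refine (Finset.sum_le_sum h7).trans ?_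
  rw [Finset.sum_add_distrib, ← Finset.mul_sum, ← Finset.mul_sum, h6]
  have h10 : √((N : ℝ) + 1) / 2 * ((S + R) ^ (N + 1) / (S * ((N : ℝ) + 1))) =
      (S + R) / S / 2 / √((N : ℝ) + 1) * (S + R) ^ N := by
    have h11 : √((N : ℝ) + 1) * √((N : ℝ) + 1) = (N : ℝ) + 1 := Real.mul_self_sqrt hN.le
    rw [pow_succ]
    have : (S * ((N : ℝ) + 1)) = S * (√((N : ℝ) + 1) * √((N : ℝ) + 1)) := by rw [h11]
    rw [this]
    field_simp
  calc _ ≤ √((N : ℝ) + 1) / 2 * ((S + R) ^ (N + 1) / (S * ((N : ℝ) + 1))) +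
        1 / √((N : ℝ) + 1) / 2 * (S + R) ^ N := by
        have := mul_le_mul_of_nonneg_left h1 (by positivity : 0 ≤ √((N : ℝ) + 1) / 2)
        linarith
    _ = _ := by rw [h10]; ring

/-- **Anticoncentration**: the coefficients of the powers of a polynomial with two positive
coefficients are at most `K / √(N + 1)` of their sum. -/
theorem pow_coeff_le {p : ℝ[X]} (hp : NN p) {i j : ℕ} (hij : i ≠ j) (hi : p.coeff i ≠ 0)
    (hj : p.coeff j ≠ 0) : ∃ K : ℝ, 0 < K ∧ ∀ N k : ℕ,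
      (p ^ N).coeff k ≤ K / √((N : ℝ) + 1) * (p.eval 1) ^ N := by
  have hi' : 0 < p.coeff i := lt_of_le_of_ne (hp i) hi.symm
  have hj' : 0 < p.coeff j := lt_of_le_of_ne (hp j) hj.symm
  obtain ⟨α, hα, hαi, hαj⟩ : ∃ α : ℝ, 0 < α ∧ α ≤ p.coeff i ∧ α ≤ p.coeff j :=
    ⟨min (p.coeff i) (p.coeff j), lt_min hi' hj', min_le_left _ _, min_le_right _ _⟩
  obtain ⟨r, hr⟩ : ∃ r : ℝ[X], p = C α * (X ^ i + X ^ j) + r :=
    ⟨p - C α * (X ^ i + X ^ j), by ring⟩
  have hrN : NN r := by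
    intro k
    have h1 : p.coeff k = α * ((if k = i then 1 else 0) + (if k = j then 1 else 0)) +
        r.coeff k := by
      conv_lhs => rw [hr]
      rw [coeff_add, coeff_C_mul, coeff_add, coeff_X_pow, coeff_X_pow]
    by_cases hki : k = i
    · subst hki
      rw [if_pos rfl, if_neg hij] at h1
      linarith
    · by_cases hkj : k = j
      · subst hkj
        rw [if_pos rfl, if_neg hki] at h1
        linarith
      · rw [if_neg hki, if_neg hkj] at h1
        have := hp k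
        linarith
  have hev : p.eval 1 = 2 * α + r.eval 1 := by
    conv_lhs => rw [hr]
    simp
    ring
  have hR := hrN.eval_nonneg
  refine ⟨((2 * α + r.eval 1) / (2 * α) + 1) / 2, by positivity, fun N k => ?_⟩
  have hb := binom_sum (2 * α) (r.eval 1) (by positivity) hR N
  rw [hev]
  refine le_trans ?_ hb
  conv_lhs => rw [hr]
  rw [add_pow, finsetSum_coeff]
  refine Finset.sum_le_sum fun M _ => ?_
  rw [coeff_mul_natCast]
  have h2 : ∀ k, ((C α * (X ^ i + X ^ j : ℝ[X])) ^ M).coeff k ≤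
      α ^ M * (2 ^ M / √((M : ℝ) + 1)) := by
    intro k
    rw [mul_pow, ← C_pow, coeff_C_mul]
    exact mul_le_mul_of_nonneg_left (two_pow i j hij M k) (by positivity)
  have h3 := coeff_mul_le _ _ (hrN.pow (N - M)) _ (by positivity) h2 k
  calc _ ≤ α ^ M * (2 ^ M / √((M : ℝ) + 1)) * (r ^ (N - M)).eval 1 * (N.choose M : ℝ) :=
        mul_le_mul_of_nonneg_right h3 (by positivity)
    _ = _ := by rw [eval_pow, mul_pow]; ring

theorem support_pow {p : ℝ[X]} (hp : NN p) {i j : ℕ} (hij : i ≠ j) (hi : p.coeff i ≠ 0)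
    (hj : p.coeff j ≠ 0) (N : ℕ) : N + 1 ≤ {k | (p ^ N).coeff k ≠ 0}.ncard := by
  have hi' : 0 < p.coeff i := lt_of_le_of_ne (hp i) hi.symm
  have hj' : 0 < p.coeff j := lt_of_le_of_ne (hp j) hj.symm
  have hfin : {k | (p ^ N).coeff k ≠ 0}.Finite := by
    have : {k | (p ^ N).coeff k ≠ 0} = ((p ^ N).support : Set ℕ) := by ext; simp
    rw [this]
    exact Finset.finite_toSet _
  have hsub : (((Finset.range (N + 1)).image fun a => a * i + (N - a) * j : Finset ℕ) : Set ℕ) ⊆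
      {k | (p ^ N).coeff k ≠ 0} := by
    intro k hk
    rw [Finset.mem_coe, Finset.mem_image] at hk
    obtain ⟨a, ha, rfl⟩ := hk
    rw [Finset.mem_range] at ha
    have h1 : p ^ N = p ^ a * p ^ (N - a) := by rw [← pow_add]; congr 1; omega
    have h2 : 0 < (p ^ N).coeff (a * i + (N - a) * j) := by
      rw [h1]
      refine lt_of_lt_of_le ?_ (coeff_mul_ge (hp.pow a) (hp.pow (N - a)) _ _)
      exact mul_pos (lt_of_lt_of_le (pow_pos hi' a) (coeff_pow_ge hp i a))
        (lt_of_lt_of_le (pow_pos hj' _) (coeff_pow_ge hp j _))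
    exact h2.ne'
  have hcard : ((Finset.range (N + 1)).image fun a => a * i + (N - a) * j).card = N + 1 := by
    rw [Finset.card_image_of_injOn, Finset.card_range]
    intro a ha b hb hab
    have ha' := Finset.mem_range.1 (Finset.mem_coe.1 ha)
    have hb' := Finset.mem_range.1 (Finset.mem_coe.1 hb)
    change a * i + (N - a) * j = b * i + (N - b) * j at hab
    zify [Nat.lt_succ_iff.1 ha', Nat.lt_succ_iff.1 hb'] at hab
    have h2 : ((i : ℤ) - j) * ((a : ℤ) - b) = 0 := by linear_combination hab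
    rcases mul_eq_zero.1 h2 with h3 | h3
    · exact absurd (by omega) hij
    · omega
  rw [← hcard, ← Set.ncard_coe_finset]
  exact Set.ncard_le_ncard hsub hfin

end Pool.Agent.V7H23.SG
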