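import Mathlib

set_option autoImplicit false

/-!
# Finite complexes of free modules over a group algebra, duality complexes, `L²`-Betti numbers
-/

open scoped Matrix ENNReal

universe u

namespace Pool.Agent.V7H23.SG

/-- A finite complex of finitely generated free left modules over the complex group algebra of `G`
(without the condition that the composition of two boundary operators is zero, see `IsDuality`): the
finite set `ι` of all elements of the bases, their degrees, and the matrix `d` of the boundary
operator, which lowers the degree by one. The chains are the row vectors `x : ι → ℂ[G]`, with the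
boundary operator `x ↦ x ᵥ* d`; the cochains with values in `ℂ[G]` are the column vectors, with the
coboundary operator `x ↦ d *ᵥ x`. -/
structure Cx (G : Type u) [Group G] where
  /-- the elements of the bases -/
  ι : Type
  [fin : Fintype ι]
  /-- the degree -/
  deg : ι → ℕ
  /-- the matrix of the boundary operator -/
  d : Matrix ι ι (MonoidAlgebra ℂ G)
  homog : ∀ i j, d i j ≠ 0 → deg i = deg j + 1

attribute [instance] Cx.fin

/-- The sum of the coefficients of an element of the group algebra. -/
noncomputable def aug {G : Type u} [Group G] (α : MonoidAlgebra ℂ G) : ℂ :=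
  α.coeff.sum fun _ c => c

/-- `C` is a complex of length `n` which is a resolution of the trivial module `ℂ`, and the
cohomology of `G` with values in `ℂ[G]` computed with it is one-dimensional in degree `n` and zero in
the other degrees: the complex of an `n`-dimensional Poincaré duality group (over `ℂ`).

Homology: a cycle `x` is a boundary if and only if `∑ aug (x i) a i = 0`, where the numbers `a i` are
not all zero, and zero unless the degree of `i` is zero. Cohomology: a cocycle `x` is a coboundary if
and only if `φ x = 0`, where `φ` is a linear functional which is not zero and depends only on the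
component of degree `n`. -/
structure IsDuality {G : Type u} [Group G] (n : ℕ) (C : Cx G) : Prop where
  sq : C.d * C.d = 0
  length : ∀ i, C.deg i ≤ n
  homology : ∃ a : C.ι → ℂ, a ≠ 0 ∧ (∀ i, C.deg i ≠ 0 → a i = 0) ∧
    ∀ x : C.ι → MonoidAlgebra ℂ G, x ᵥ* C.d = 0 →
      ((∃ y, y ᵥ* C.d = x) ↔ ∑ i, aug (x i) * a i = 0)
  cohomology : ∃ φ : (C.ι → MonoidAlgebra ℂ G) →ₗ[ℂ] ℂ, φ ≠ 0 ∧
    (∀ x, (∀ i, C.deg i = n → x i = 0) → φ x = 0) ∧
    ∀ x : C.ι → MonoidAlgebra ℂ G, C.d *ᵥ x = 0 → ((∃ y, C.d *ᵥ y = x) ↔ φ x = 0)

/-- The value at `g` of the convolution `α * f`. -/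
noncomputable def conv {G : Type u} [Group G] (α : MonoidAlgebra ℂ G) (f : G → ℂ) (g : G) : ℂ :=
  ∑ k ∈ α.coeff.support, α.coeff k * f (k⁻¹ * g)

/-- The value at `g` of the convolution `α* * f` with the adjoint of `α`. -/
noncomputable def coconv {G : Type u} [Group G] (α : MonoidAlgebra ℂ G) (f : G → ℂ) (g : G) : ℂ :=
  ∑ k ∈ α.coeff.support, (starRingEnd ℂ) (α.coeff k) * f (k * g)

/-- The square-summable harmonic cochains: the square-summable functions `F` on `G × ι` in the
kernels of the coboundary operator (the matrix `d`, acting by convolution) and of its adjoint. -/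
noncomputable def harmonic {G : Type u} [Group G] (C : Cx G) :
    Set (lp (fun _ : G × C.ι => ℂ) 2) :=
  {F | (∀ i g, ∑ j, conv (C.d i j) (fun x => F (x, j)) g = 0) ∧
    ∀ j g, ∑ i, coconv (C.d i j) (fun x => F (x, i)) g = 0}

open Classical in
/-- The `k`-th `L²`-Betti number: the von Neumann dimension of the space of harmonic cochains of
degree `k`, that is, the sum over the elements of the basis of degree `k` of one minus the squared
distance of the basis vector (at the identity of `G`) to the space of harmonic cochains. -/
noncomputable def betti {G : Type u} [Group G] (C : Cx G) (k : ℕ) : ℝ :=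
  ∑ j with C.deg j = k, (1 - Metric.infDist
    (lp.single 2 ((1 : G), j) (1 : ℂ) : lp (fun _ : G × C.ι => ℂ) 2) (harmonic C) ^ 2)

/-- The `L²`-Betti numbers `b 0, b 1, …` of all duality complexes over groups of the class `𝒞`
satisfy `P n b`, where `n` is the dimension. -/
def Always (𝒞 : ∀ (G : Type u) [Group G], Prop) (P : ℕ → (ℕ → ℝ) → Prop) : Prop :=
  ∀ (G : Type u) [Group G], 𝒞 G → ∀ (n : ℕ) (C : Cx G), IsDuality n C → P n (betti C)

/-- For all `n ≥ 1` and `ε > 0` there is a multiple `m ≥ 1` of `n` such that the `L²`-Betti
numbers `b 0, b 1, …` of all duality complexes of dimension `m` over groups of the class `𝒞`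
satisfy `P ε m b`. -/
def Asymptotically (𝒞 : ∀ (G : Type u) [Group G], Prop) (P : ℝ → ℕ → (ℕ → ℝ) → Prop) : Prop :=
  ∀ n : ℕ, 0 < n → ∀ ε : ℝ, 0 < ε → ∃ m : ℕ, 0 < m ∧ n ∣ m ∧
    ∀ (G : Type u) [Group G], 𝒞 G → ∀ C : Cx G, IsDuality m C → P ε m (betti C)

end Pool.Agent.V7H23.SG
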