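import Pool.Agent.V7H23.SG.Alg

set_option autoImplicit false
set_option linter.unusedSectionVars false

/-!
# The product of two duality complexes is a duality complex
-/

open scoped Matrix TensorProduct
open Module

universe u

namespace Pool.Agent.V7H23.SG

variable {G : Type u} [Group G] {H : Type u} [Group H]

/-- The product of two complexes: the tensor product, over the group algebra of `G × H`. The basis
consists of the pairs, the degree is the sum of the degrees, and the boundary operator is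
`d ⊗ 1 + (-1)^deg ⊗ d`, see `pM`. -/
noncomputable def Cx.prod (C : Cx G) (D : Cx H) : Cx (G × H) where
  ι := C.ι × D.ι
  deg := fun p => C.deg p.1 + D.deg p.2
  d := pM C.deg C.d D.d
  homog := by
    classical
    rintro ⟨i, j⟩ ⟨i', j'⟩ h
    by_contra hne
    apply h
    unfold pM
    simp only
    have h1 : j = j' → C.d i i' = 0 := by
      intro hj
      by_contra h0
      have := C.homog i i' h0
      apply hne
      change C.deg i + D.deg j = C.deg i' + D.deg j' + 1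
      rw [hj]
      omega
    have h2 : i = i' → D.d j j' = 0 := by
      intro hi
      by_contra h0
      have := D.homog j j' h0
      apply hne
      change C.deg i + D.deg j = C.deg i' + D.deg j' + 1
      rw [hi]
      omega
    split_ifs with h3 h4 h4
    · rw [h1 h3, h2 h4, map_zero, map_zero, smul_zero, add_zero]
    · rw [h1 h3, map_zero, add_zero]
    · rw [h2 h4, map_zero, smul_zero, add_zero]
    · rw [add_zero]

section

variable {ι κ : Type} [Fintype ι] [Fintype κ]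

/-- the augmentation functional -/
noncomputable def augL (a : ι → ℂ) : (ι → MonoidAlgebra ℂ G) →ₗ[ℂ] ℂ where
  toFun := fun x => ∑ i, aug (x i) * a i
  map_add' := fun x y => by
    simp only [Pi.add_apply, aug_add, add_mul, Finset.sum_add_distrib]
  map_smul' := fun c x => by
    simp only [Pi.smul_apply, aug_smul, RingHom.id_apply, smul_eq_mul, Finset.mul_sum, mul_assoc]

theorem augL_apply (a : ι → ℂ) (x : ι → MonoidAlgebra ℂ G) :
    augL a x = ∑ i, aug (x i) * a i := rfl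

/-- the projection to a part of the basis -/
noncomputable def pr (S : ι → Prop) [DecidablePred S] :
    (ι → MonoidAlgebra ℂ G) →ₗ[ℂ] (ι → MonoidAlgebra ℂ G) where
  toFun := fun x i => if S i then x i else 0
  map_add' := fun x y => by
    funext i
    simp only [Pi.add_apply]
    split_ifs <;> simp
  map_smul' := fun c x => by
    funext i
    simp only [Pi.smul_apply, RingHom.id_apply]
    split_ifs <;> simp

theorem pr_apply (S : ι → Prop) [DecidablePred S] (x : ι → MonoidAlgebra ℂ G) (i : ι) :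
    pr S x i = if S i then x i else 0 := rfl

theorem single_vecMul [DecidableEq ι] (M : Matrix ι ι (MonoidAlgebra ℂ G)) (i : ι)
    (α : MonoidAlgebra ℂ G) (j : ι) : (Pi.single i α ᵥ* M) j = α * M i j := by
  simp only [Matrix.vecMul, dotProduct]
  rw [Finset.sum_eq_single i]
  · rw [Pi.single_eq_same]
  · intro b _ hb
    rw [Pi.single_eq_of_ne hb, zero_mul]
  · intro h
    exact absurd (Finset.mem_univ i) h

end

theorem rows {n : ℕ} {C : Cx G} (h : IsDuality n C) : ∃ (a : C.ι → ℂ) (v : C.ι → MonoidAlgebra ℂ G),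
    a ≠ 0 ∧ (∀ i, C.deg i ≠ 0 → a i = 0) ∧ OneHom (dR C.d) v (augL a) ∧ sg C.deg v = (1 : ℂ) • v := by
  classical
  obtain ⟨a, ha, hdeg, hiff⟩ := h.homology
  obtain ⟨i0, hi0⟩ := Function.ne_iff.1 ha
  have hi0 : a i0 ≠ 0 := hi0
  have hd0 : C.deg i0 = 0 := by
    by_contra h0
    exact hi0 (hdeg i0 h0)
  have sq : ∀ x : C.ι → MonoidAlgebra ℂ G, (x ᵥ* C.d) ᵥ* C.d = 0 := by
    intro x
    rw [Matrix.vecMul_vecMul, h.sq, Matrix.vecMul_zero]
  refine ⟨a, Pi.single i0 (MonoidAlgebra.single 1 (a i0)⁻¹), ha, hdeg, ⟨sq, ?_, ?_, ?_, ?_⟩, ?_⟩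
  · funext j
    rw [dR_apply, single_vecMul]
    by_cases h0 : C.d i0 j = 0
    · rw [h0, mul_zero]; rfl
    · have := C.homog i0 j h0
      omega
  · rw [augL_apply, Finset.sum_eq_single i0]
    · rw [Pi.single_eq_same, aug_single, inv_mul_cancel₀ hi0]
    · intro b _ hb
      rw [Pi.single_eq_of_ne hb, aug_zero, zero_mul]
    · intro h0
      exact absurd (Finset.mem_univ _) h0
  · intro x
    exact (hiff _ (sq x)).1 ⟨x, rfl⟩
  · intro x hx hx2
    exact (hiff x hx).2 hx2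
  · funext i
    rw [sg_apply, one_smul]
    by_cases h0 : i = i0
    · rw [h0, hd0, pow_zero, one_smul]
    · rw [Pi.single_eq_of_ne h0, smul_zero]

theorem cols {n : ℕ} {C : Cx G} (h : IsDuality n C) :
    ∃ (φ : (C.ι → MonoidAlgebra ℂ G) →ₗ[ℂ] ℂ) (v : C.ι → MonoidAlgebra ℂ G),
      (∀ x, (∀ i, C.deg i = n → x i = 0) → φ x = 0) ∧ OneHom (dC C.d) v φ ∧
        sg C.deg v = ((-1 : ℂ) ^ n) • v := by
  classical
  obtain ⟨φ, hφ, hdeg, hiff⟩ := h.cohomology
  obtain ⟨x0, hx0⟩ : ∃ x0, φ x0 ≠ 0 := by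
    by_contra hne
    push Not at hne
    exact hφ (LinearMap.ext hne)
  set x1 : C.ι → MonoidAlgebra ℂ G := pr (fun i => C.deg i = n) x0 with hx1
  have hx1' : φ x1 = φ x0 := by
    have h1 : φ (x0 - x1) = 0 := by
      apply hdeg
      intro i hi
      rw [Pi.sub_apply, hx1, pr_apply, if_pos hi, sub_self]
    rw [map_sub, sub_eq_zero] at h1
    exact h1.symm
  have sq : ∀ x : C.ι → MonoidAlgebra ℂ G, C.d *ᵥ (C.d *ᵥ x) = 0 := by
    intro x
    rw [Matrix.mulVec_mulVec, h.sq, Matrix.zero_mulVec]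
  refine ⟨φ, (φ x0)⁻¹ • x1, hdeg, ⟨sq, ?_, ?_, ?_, ?_⟩, ?_⟩
  · rw [map_smul]
    have : dC C.d x1 = 0 := by
      funext i
      rw [dC_apply]
      simp only [Matrix.mulVec, dotProduct]
      apply Finset.sum_eq_zero
      intro j _
      by_cases h0 : C.d i j = 0
      · rw [h0, zero_mul]
      · have h2 := C.homog i j h0
        have h3 := h.length i
        rw [hx1, pr_apply, if_neg (by omega), mul_zero]
    rw [this, smul_zero]
  · rw [map_smul, hx1', smul_eq_mul, inv_mul_cancel₀ hx0]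
  · intro x
    exact (hiff _ (sq x)).1 ⟨x, rfl⟩
  · intro x hx hx2
    exact (hiff x hx).2 hx2
  · rw [map_smul, smul_comm]
    congr 1
    funext i
    rw [sg_apply, Pi.smul_apply, hx1, pr_apply]
    by_cases h0 : C.deg i = n
    · rw [if_pos h0, h0]
    · rw [if_neg h0, smul_zero, smul_zero]

section aux

variable {ι κ : Type} [Fintype ι] [Fintype κ] {deg : ι → ℕ} {M : Matrix ι ι (MonoidAlgebra ℂ G)}
  {N : Matrix κ κ (MonoidAlgebra ℂ H)}

theorem aux_sq {v : (ι → MonoidAlgebra ℂ G) ⊗[ℂ] (κ → MonoidAlgebra ℂ H)}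
    {e : (ι → MonoidAlgebra ℂ G) ⊗[ℂ] (κ → MonoidAlgebra ℂ H) →ₗ[ℂ] ℂ}
    (hR : OneHom (tot (dR M) (sg deg) (dR N)) v e) : pM deg M N * pM deg M N = 0 := by
  classical
  have h1 : ∀ x : ι × κ → MonoidAlgebra ℂ (G × H), (x ᵥ* pM deg M N) ᵥ* pM deg M N = 0 := by
    intro x
    obtain ⟨z, rfl⟩ := Phi.surjective x
    rw [← Phi_dR, ← Phi_dR, hR.sq, map_zero]
  ext1 p q
  have h2 := congrFun (h1 (Pi.single p 1)) q
  rw [Matrix.vecMul_vecMul, single_vecMul, one_mul] at h2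
  exact h2

theorem aux_key (a : ι → ℂ) (b : κ → ℂ)
    (z : (ι → MonoidAlgebra ℂ G) ⊗[ℂ] (κ → MonoidAlgebra ℂ H)) :
    ∑ p : ι × κ, aug (Phi z p : MonoidAlgebra ℂ (G × H)) * (a p.1 * b p.2) =
      totF (augL a) (augL b) z := by
  have hlin : (augL (fun p : ι × κ => a p.1 * b p.2) ∘ₗ Phi.toLinearMap) =
      totF (augL a) (augL b) (V := ι → MonoidAlgebra ℂ G) (W := κ → MonoidAlgebra ℂ H) := by
    apply TensorProduct.ext'
    intro x y
    rw [totF_tmul, LinearMap.comp_apply, LinearEquiv.coe_coe, augL_apply, augL_apply,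
      augL_apply, Finset.sum_mul_sum, Fintype.sum_prod_type]
    refine Finset.sum_congr rfl fun i _ => Finset.sum_congr rfl fun j _ => ?_
    rw [Phi_tmul, aug_prod]
    ring
  exact LinearMap.congr_fun hlin z

theorem aux_hom (a : ι → ℂ) (b : κ → ℂ)
    {v : (ι → MonoidAlgebra ℂ G) ⊗[ℂ] (κ → MonoidAlgebra ℂ H)}
    (hR : OneHom (tot (dR M) (sg deg) (dR N)) v (totF (augL a) (augL b)))
    (x : ι × κ → MonoidAlgebra ℂ (G × H)) (hx : x ᵥ* pM deg M N = 0) :
    (∃ y, y ᵥ* pM deg M N = x) ↔ ∑ p, aug (x p) * (a p.1 * b p.2) = 0 := by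
  obtain ⟨z, rfl⟩ := Phi.surjective x
  have hz : tot (dR M) (sg deg) (dR N) z = 0 := by
    apply Phi.injective
    rw [Phi_dR, map_zero, hx]
  rw [aux_key]
  constructor
  · rintro ⟨y, hy⟩
    obtain ⟨z', rfl⟩ := Phi.surjective y
    rw [← Phi_dR] at hy
    rw [← Phi.injective hy, hR.kill]
  · intro h0
    obtain ⟨y, hy⟩ := hR.ex z hz h0
    exact ⟨Phi y, by rw [← Phi_dR, hy]⟩

theorem aux_coh (φ : (ι → MonoidAlgebra ℂ G) →ₗ[ℂ] ℂ) (ψ : (κ → MonoidAlgebra ℂ H) →ₗ[ℂ] ℂ)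
    {v : (ι → MonoidAlgebra ℂ G) ⊗[ℂ] (κ → MonoidAlgebra ℂ H)}
    (hC : OneHom (tot (dC M) (sg deg) (dC N)) v (totF φ ψ))
    (x : ι × κ → MonoidAlgebra ℂ (G × H)) (hx : pM deg M N *ᵥ x = 0) :
    (∃ y, pM deg M N *ᵥ y = x) ↔ (totF φ ψ ∘ₗ Phi.symm.toLinearMap) x = 0 := by
  obtain ⟨z, rfl⟩ := Phi.surjective x
  have hz : tot (dC M) (sg deg) (dC N) z = 0 := by
    apply Phi.injective
    rw [Phi_dC, map_zero, hx]
  rw [LinearMap.comp_apply, LinearEquiv.coe_coe, LinearEquiv.symm_apply_apply]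
  constructor
  · rintro ⟨y, hy⟩
    obtain ⟨z', rfl⟩ := Phi.surjective y
    rw [← Phi_dC] at hy
    rw [← Phi.injective hy, hC.kill]
  · intro h0
    obtain ⟨y, hy⟩ := hC.ex z hz h0
    exact ⟨Phi y, by rw [← Phi_dC, hy]⟩

theorem aux_ne (φ : (ι → MonoidAlgebra ℂ G) →ₗ[ℂ] ℂ) (ψ : (κ → MonoidAlgebra ℂ H) →ₗ[ℂ] ℂ)
    {v : (ι → MonoidAlgebra ℂ G) ⊗[ℂ] (κ → MonoidAlgebra ℂ H)}
    (hv : totF φ ψ v = 1) :
    (totF φ ψ ∘ₗ Phi.symm.toLinearMap : (ι × κ → MonoidAlgebra ℂ (G × H)) →ₗ[ℂ] ℂ) ≠ 0 := by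
  intro h0
  have h1 := LinearMap.congr_fun h0 (Phi v)
  rw [LinearMap.comp_apply, LinearEquiv.coe_coe, LinearEquiv.symm_apply_apply, hv] at h1
  exact one_ne_zero h1

theorem aux_top (S : ι → Prop) (T : κ → Prop)
    (φ : (ι → MonoidAlgebra ℂ G) →ₗ[ℂ] ℂ) (ψ : (κ → MonoidAlgebra ℂ H) →ₗ[ℂ] ℂ)
    (hφ : ∀ x, (∀ i, S i → x i = 0) → φ x = 0) (hψ : ∀ x, (∀ i, T i → x i = 0) → ψ x = 0)
    (x : ι × κ → MonoidAlgebra ℂ (G × H)) (hx : ∀ p, S p.1 → T p.2 → x p = 0) :
    (totF φ ψ ∘ₗ Phi.symm.toLinearMap) x = 0 := by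
  classical
  obtain ⟨z, rfl⟩ := Phi.surjective x
  rw [LinearMap.comp_apply, LinearEquiv.coe_coe, LinearEquiv.symm_apply_apply]
  set p1 : (ι → MonoidAlgebra ℂ G) →ₗ[ℂ] (ι → MonoidAlgebra ℂ G) := pr S with hp1
  set p2 : (κ → MonoidAlgebra ℂ H) →ₗ[ℂ] (κ → MonoidAlgebra ℂ H) := pr T with hp2
  have e1 : ∀ x, φ (p1 x) = φ x := by
    intro x
    have h1 : φ (x - p1 x) = 0 := by
      apply hφ
      intro i hi
      rw [Pi.sub_apply, hp1, pr_apply, if_pos hi, sub_self]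
    rw [map_sub, sub_eq_zero] at h1
    exact h1.symm
  have e2 : ∀ x, ψ (p2 x) = ψ x := by
    intro x
    have h1 : ψ (x - p2 x) = 0 := by
      apply hψ
      intro i hi
      rw [Pi.sub_apply, hp2, pr_apply, if_pos hi, sub_self]
    rw [map_sub, sub_eq_zero] at h1
    exact h1.symm
  have e3 : ∀ z, totF φ ψ (TensorProduct.map p1 p2 z) = totF φ ψ z := by
    intro z
    induction z using TensorProduct.induction_on with
    | zero => simp
    | add a b ha hb => rw [map_add, map_add, map_add, ha, hb]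
    | tmul x y => rw [TensorProduct.map_tmul, totF_tmul, totF_tmul, e1, e2]
  have e4 : ∀ z (p : ι × κ), Phi (TensorProduct.map p1 p2 z) p =
      if S p.1 ∧ T p.2 then Phi z p else 0 := by
    intro z p
    induction z using TensorProduct.induction_on with
    | zero => simp
    | add a b ha hb =>
      rw [map_add, map_add, map_add, Pi.add_apply, Pi.add_apply, ha, hb]
      split_ifs <;> simp
    | tmul x y =>
      rw [TensorProduct.map_tmul, Phi_tmul, Phi_tmul, hp1, hp2, pr_apply, pr_apply]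
      by_cases h1 : S p.1
      · by_cases h2 : T p.2
        · rw [if_pos h1, if_pos h2, if_pos ⟨h1, h2⟩]
        · rw [if_neg h2, map_zero, mul_zero, if_neg (fun h => h2 h.2)]
      · rw [if_neg h1, map_zero, zero_mul, if_neg (fun h => h1 h.1)]
  have e5 : TensorProduct.map p1 p2 z = 0 := by
    apply Phi.injective
    rw [map_zero]
    funext p
    rw [e4]
    split_ifs with h1
    · exact hx p h1.1 h1.2
    · rfl
  rw [← e3, e5, map_zero]

end aux

/-- **The product of two duality complexes is a duality complex.** -/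
theorem IsDuality.prod {n m : ℕ} {C : Cx G} {D : Cx H} (h : IsDuality n C) (h' : IsDuality m D) :
    IsDuality (n + m) (C.prod D) := by
  classical
  obtain ⟨a, v, ha, hadeg, hav, hsv⟩ := rows h
  obtain ⟨b, w, hb, hbdeg, hbw, hsw⟩ := rows h'
  have hR := hav.tot (sg_sg C.deg) (sg_dR C.d C.deg C.homog) ⟨1, hsv⟩ hbw
  obtain ⟨φ, v', hφ, hφv, hsv'⟩ := cols h
  obtain ⟨ψ, w', hψ, hψw, hsw'⟩ := cols h'
  have hC := hφv.tot (sg_sg C.deg) (sg_dC C.d C.deg C.homog) ⟨_, hsv'⟩ hψw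
  refine ⟨aux_sq hR, ?_, ⟨fun p : C.ι × D.ι => a p.1 * b p.2, ?_, ?_, aux_hom a b hR⟩,
    ⟨(totF φ ψ ∘ₗ Phi.symm.toLinearMap : (C.ι × D.ι → MonoidAlgebra ℂ (G × H)) →ₗ[ℂ] ℂ),
      aux_ne φ ψ hC.one, ?_, aux_coh φ ψ hC⟩⟩
  · rintro ⟨i, j⟩
    exact add_le_add (h.length i) (h'.length j)
  · obtain ⟨i0, hi0⟩ := Function.ne_iff.1 ha
    obtain ⟨j0, hj0⟩ := Function.ne_iff.1 hb
    exact Function.ne_iff.2 ⟨(i0, j0), mul_ne_zero hi0 hj0⟩
  · rintro ⟨i, j⟩ hp
    have hp : C.deg i + D.deg j ≠ 0 := hp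
    change a i * b j = 0
    by_cases h0 : C.deg i = 0
    · rw [hbdeg j (by omega), mul_zero]
    · rw [hadeg i h0, zero_mul]
  · intro x hx
    refine aux_top (fun i => C.deg i = n) (fun j => D.deg j = m) φ ψ hφ hψ x fun p h1 h2 => hx p ?_
    change C.deg p.1 + D.deg p.2 = n + m
    rw [h1, h2]

end Pool.Agent.V7H23.SG
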