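import Pool.Agent.V7H23.SG.L2

set_option autoImplicit false
set_option linter.unusedSectionVars false

/-!
# The Künneth formula for the `L²`-Betti numbers of the product of two complexes
-/

open scoped InnerProductSpace InnerProduct ENNReal Matrix

universe u

namespace Pool.Agent.V7H23.SG

open Pool.Agent.W649.ZL Pool.Agent.N309.PD

variable {G : Type u} [Group G] {H : Type u} [Group H]

open Classical in
/-- the contribution of an element of the basis -/
noncomputable def bt (C : Cx G) (j : C.ι) : ℝ :=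
  1 - Metric.infDist (lp.single 2 ((1 : G), j) (1 : ℂ) : lp (fun _ : G × C.ι => ℂ) 2)
    (harmonic C) ^ 2

theorem betti_eq (C : Cx G) (k : ℕ) : betti C k = ∑ j with C.deg j = k, bt C j := by
  unfold betti bt
  rfl

theorem single_inst {X : Type*} (i1 i2 : DecidableEq X) (x : X) :
    (@lp.single X (fun _ => ℂ) _ i1 2 x (1 : ℂ) : lp (fun _ : X => ℂ) 2) =
      (@lp.single X (fun _ => ℂ) _ i2 2 x (1 : ℂ) : lp (fun _ : X => ℂ) 2) := by
  cases Subsingleton.elim i1 i2
  rfl

theorem bt_prod (C : Cx G) (D : Cx H) (i : C.ι) (j : D.ι) :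
    bt (C.prod D) ((i, j) : C.ι × D.ι) = bt C i * bt D j := by
  classical
  have c1 : CompleteSpace (hsp C.d) := (hsp_closed C.d).completeSpace_coe
  have c2 : CompleteSpace (hsp D.d) := (hsp_closed D.d).completeSpace_coe
  have h := infDist_tens (eq4 G H C.ι D.ι) (hsp C.d) (hsp D.d) (hsp (pM C.deg C.d D.d))
    (mem_hsp_prod C.deg C.d C.homog D.d) ((1 : G), i) ((1 : H), j)
  have e1 : harmonic C = (hsp C.d : Set (EE G C.ι)) := harmonic_eq C
  have e2 : harmonic D = (hsp D.d : Set (EE H D.ι)) := harmonic_eq D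
  have e3 : harmonic (C.prod D) =
      (hsp (pM C.deg C.d D.d) : Set (EE (G × H) (C.ι × D.ι))) :=
    @harmonic_eq (G × H) _ (C.prod D) (instDecidableEqProd : DecidableEq (C.ι × D.ι))
  unfold bt
  rw [e1, e2, e3, ← h]
  refine congrArg (fun t => 1 - t ^ 2) ?_
  refine congrArg (fun t => Metric.infDist t _) ?_
  exact single_inst _ _ _

theorem bt_nonneg (C : Cx G) (j : C.ι) : 0 ≤ bt C j := by
  classical
  unfold bt
  have e1 : harmonic C = (hsp C.d : Set (EE G C.ι)) := harmonic_eq C
  rw [e1]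
  have h1 : Metric.infDist (lp.single 2 ((1 : G), j) (1 : ℂ) : lp (fun _ : G × C.ι => ℂ) 2)
      (hsp C.d : Set (EE G C.ι)) ≤ 1 := by
    refine le_trans (Metric.infDist_le_dist_of_mem (hsp C.d).zero_mem) ?_
    rw [dist_zero_right, norm_single1]
  have h2 := Metric.infDist_nonneg (x := (lp.single 2 ((1 : G), j) (1 : ℂ) :
    lp (fun _ : G × C.ι => ℂ) 2)) (s := (hsp C.d : Set (EE G C.ι)))
  nlinarith

theorem betti_nonneg (C : Cx G) (k : ℕ) : 0 ≤ betti C k := by
  rw [betti_eq]
  exact Finset.sum_nonneg fun j _ => bt_nonneg C j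

/-- **The Künneth formula.** -/
theorem betti_prod (C : Cx G) (D : Cx H) (k : ℕ) :
    betti (C.prod D) k = ∑ p ∈ Finset.HasAntidiagonal.antidiagonal k, betti C p.1 * betti D p.2 := by
  classical
  have h1 : betti (C.prod D) k =
      ∑ p : C.ι × D.ι, if C.deg p.1 + D.deg p.2 = k then bt C p.1 * bt D p.2 else 0 := by
    rw [betti_eq, Finset.sum_filter]
    change ∑ p : C.ι × D.ι, (if C.deg p.1 + D.deg p.2 = k then
      bt (C.prod D) ((p.1, p.2) : C.ι × D.ι) else 0) = _
    refine Finset.sum_congr rfl fun p _ => ?_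
    rw [bt_prod]
  rw [h1]
  have h2 : ∀ p ∈ Finset.HasAntidiagonal.antidiagonal k, betti C p.1 * betti D p.2 =
      ∑ q : C.ι × D.ι, if C.deg q.1 = p.1 ∧ D.deg q.2 = p.2 then bt C q.1 * bt D q.2 else 0 := by
    intro p _
    rw [betti_eq, betti_eq, Finset.sum_mul_sum, Fintype.sum_prod_type, Finset.sum_filter]
    refine Finset.sum_congr rfl fun i _ => ?_
    rw [Finset.sum_filter]
    split_ifs with h3
    · refine Finset.sum_congr rfl fun j _ => ?_
      by_cases h4 : D.deg j = p.2
      · rw [if_pos h4, if_pos ⟨h3, h4⟩]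
      · rw [if_neg h4, if_neg fun h => h4 h.2]
    · symm
      apply Finset.sum_eq_zero
      intro j _
      rw [if_neg fun h => h3 h.1]
  rw [Finset.sum_congr rfl h2, Finset.sum_comm]
  refine Finset.sum_congr rfl fun q _ => ?_
  by_cases h3 : C.deg q.1 + D.deg q.2 = k
  · rw [if_pos h3, Finset.sum_eq_single (C.deg q.1, D.deg q.2)]
    · rw [if_pos ⟨rfl, rfl⟩]
    · intro p _ hp
      rw [if_neg]
      rintro ⟨h4, h5⟩
      exact hp (by rw [h4, h5])
    · intro h4
      exact absurd (Finset.HasAntidiagonal.mem_antidiagonal.2 h3) h4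
  · rw [if_neg h3]
    symm
    apply Finset.sum_eq_zero
    intro p hp
    rw [if_neg]
    rintro ⟨h4, h5⟩
    apply h3
    rw [h4, h5]
    exact Finset.HasAntidiagonal.mem_antidiagonal.1 hp

theorem betti_large {n : ℕ} {C : Cx G} (h : ∀ i, C.deg i ≤ n) {k : ℕ} (hk : n < k) :
    betti C k = 0 := by
  rw [betti_eq]
  apply Finset.sum_eq_zero
  intro j hj
  rw [Finset.mem_filter] at hj
  have := h j
  omega

open Polynomial in
/-- the `L²`-Poincaré polynomial -/
noncomputable def pol (C : Cx G) (n : ℕ) : ℝ[X] :=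
  ∑ k ∈ Finset.range (n + 1), Polynomial.C (betti C k) * X ^ k

theorem pol_coeff {n : ℕ} {C : Cx G} (h : ∀ i, C.deg i ≤ n) (k : ℕ) :
    (pol C n).coeff k = betti C k := by
  unfold pol
  rw [Polynomial.finsetSum_coeff]
  simp only [Polynomial.coeff_C_mul, Polynomial.coeff_X_pow, mul_ite, mul_one, mul_zero]
  rw [Finset.sum_ite_eq]
  split_ifs with h1
  · rfl
  · rw [Finset.mem_range, not_lt] at h1
    rw [betti_large h (by omega)]

theorem pol_prod {n m : ℕ} {C : Cx G} {D : Cx H} (h : ∀ i, C.deg i ≤ n) (h' : ∀ i, D.deg i ≤ m) :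
    pol (C.prod D) (n + m) = pol C n * pol D m := by
  ext k
  rw [pol_coeff, Polynomial.coeff_mul, betti_prod]
  · refine Finset.sum_congr rfl fun p _ => ?_
    rw [pol_coeff h, pol_coeff h']
  · rintro ⟨i, j⟩
    exact add_le_add (h i) (h' j)

end Pool.Agent.V7H23.SG
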