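import Mathlib

set_option autoImplicit false
set_option linter.unusedSectionVars false

/-!
# Projections to tensor products of closed subspaces of spaces of square-summable functions
-/

open scoped InnerProductSpace InnerProduct ENNReal

namespace Pool.Agent.V7H23.SG

section proj

variable {E : Type*} [NormedAddCommGroup E] [InnerProductSpace ℂ E]

theorem infDist_eq {U : Submodule ℂ E} {δ u : E} (hu : u ∈ U)
    (h : ∀ w ∈ U, ⟪u, w⟫_ℂ = ⟪δ, w⟫_ℂ) : Metric.infDist δ (U : Set E) = ‖δ - u‖ := by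
  have h1 : ∀ w ∈ U, ‖δ - u‖ ≤ dist δ w := by
    intro w hw
    have h2 : ⟪δ - u, u - w⟫_ℂ = 0 := by
      rw [inner_sub_left, h _ (U.sub_mem hu hw), sub_self]
    have h3 : ‖δ - w‖ ^ 2 = ‖δ - u‖ ^ 2 + ‖u - w‖ ^ 2 := by
      have h4 : δ - w = (δ - u) + (u - w) := by abel
      rw [h4, norm_add_sq (𝕜 := ℂ), h2]
      simp
    rw [dist_eq_norm]
    have h5 : ‖δ - u‖ ^ 2 ≤ ‖δ - w‖ ^ 2 := by
      rw [h3]; nlinarith [sq_nonneg ‖u - w‖]
    exact (sq_le_sq₀ (norm_nonneg _) (norm_nonneg _)).1 h5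
  apply le_antisymm
  · rw [← dist_eq_norm]
    exact Metric.infDist_le_dist_of_mem hu
  · rw [Metric.le_infDist ⟨u, hu⟩]
    intro y hy
    exact h1 y hy

theorem one_sub_infDist {U : Submodule ℂ E} {δ u : E} (hu : u ∈ U)
    (h : ∀ w ∈ U, ⟪u, w⟫_ℂ = ⟪δ, w⟫_ℂ) (hδ : ‖δ‖ = 1) :
    ((1 - Metric.infDist δ (U : Set E) ^ 2 : ℝ) : ℂ) = ⟪δ, u⟫_ℂ := by
  rw [infDist_eq hu h]
  have h1 : ⟪δ - u, u⟫_ℂ = 0 := by rw [inner_sub_left, h u hu, sub_self]
  have h2 : ‖δ‖ ^ 2 = ‖δ - u‖ ^ 2 + ‖u‖ ^ 2 := by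
    have h4 : δ = (δ - u) + u := by abel
    conv_lhs => rw [h4]
    rw [norm_add_sq (𝕜 := ℂ), h1]
    simp
  rw [hδ] at h2
  have h3 : (1 - ‖δ - u‖ ^ 2 : ℝ) = ‖u‖ ^ 2 := by linarith
  rw [h3, ← h u hu, inner_self_eq_norm_sq_to_K]
  norm_cast

theorem exists_proj (U : Submodule ℂ E) [CompleteSpace U] (δ : E) :
    ∃ u ∈ U, ∀ w ∈ U, ⟪u, w⟫_ℂ = ⟪δ, w⟫_ℂ := by
  refine ⟨U.starProjection δ, Submodule.starProjection_apply_mem U δ, fun w hw => ?_⟩
  have h1 : δ - U.starProjection δ ∈ Uᗮ := Submodule.sub_starProjection_mem_orthogonal δ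
  have h2 := Submodule.inner_left_of_mem_orthogonal hw h1
  rw [inner_sub_left, sub_eq_zero] at h2
  exact h2.symm

end proj

section tens

variable {X Y Z : Type*}

theorem mem2_iff {X : Type*} (f : X → ℂ) : Memℓp f 2 ↔ Summable fun x => ‖f x‖ ^ 2 := by
  rw [memℓp_gen_iff (by norm_num)]
  simp only [ENNReal.toReal_ofNat, Real.rpow_ofNat]

/-- the slices -/
noncomputable def sl1 (e : X × Y ≃ Z) (F : lp (fun _ : Z => ℂ) 2) (y : Y) :
    lp (fun _ : X => ℂ) 2 :=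
  ⟨fun x => F (e (x, y)), by
    have h := (mem2_iff _).1 F.2
    apply (mem2_iff _).2
    exact h.comp_injective (i := fun x => e (x, y)) (by
      intro a b hab
      have := e.injective hab
      simpa using this)⟩

/-- the slices -/
noncomputable def sl2 (e : X × Y ≃ Z) (F : lp (fun _ : Z => ℂ) 2) (x : X) :
    lp (fun _ : Y => ℂ) 2 :=
  ⟨fun y => F (e (x, y)), by
    have h := (mem2_iff _).1 F.2
    apply (mem2_iff _).2
    exact h.comp_injective (i := fun y => e (x, y)) (by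
      intro a b hab
      have := e.injective hab
      simpa using this)⟩

theorem sl1_apply (e : X × Y ≃ Z) (F : lp (fun _ : Z => ℂ) 2) (y : Y) (x : X) :
    sl1 e F y x = F (e (x, y)) := rfl

theorem sl2_apply (e : X × Y ≃ Z) (F : lp (fun _ : Z => ℂ) 2) (x : X) (y : Y) :
    sl2 e F x y = F (e (x, y)) := rfl

/-- the tensor product of two functions -/
noncomputable def tens (e : X × Y ≃ Z) (a : lp (fun _ : X => ℂ) 2) (b : lp (fun _ : Y => ℂ) 2) :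
    lp (fun _ : Z => ℂ) 2 :=
  ⟨fun z => a (e.symm z).1 * b (e.symm z).2, by
    have ha := (mem2_iff _).1 a.2
    have hb := (mem2_iff _).1 b.2
    apply (mem2_iff _).2
    have h1 : Summable fun p : X × Y => ‖a p.1‖ ^ 2 * ‖b p.2‖ ^ 2 :=
      ha.mul_of_nonneg hb (fun _ => by positivity) (fun _ => by positivity)
    have h2 := (Equiv.summable_iff e.symm).2 h1
    refine h2.congr fun z => ?_
    simp only [Function.comp_apply, norm_mul, mul_pow]⟩

theorem tens_apply (e : X × Y ≃ Z) (a : lp (fun _ : X => ℂ) 2) (b : lp (fun _ : Y => ℂ) 2)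
    (x : X) (y : Y) : tens e a b (e (x, y)) = a x * b y := by
  change a (e.symm (e (x, y))).1 * b (e.symm (e (x, y))).2 = _
  rw [Equiv.symm_apply_apply]

theorem sl1_tens (e : X × Y ≃ Z) (a : lp (fun _ : X => ℂ) 2) (b : lp (fun _ : Y => ℂ) 2) (y : Y) :
    sl1 e (tens e a b) y = b y • a := by
  ext x
  rw [sl1_apply, tens_apply, mul_comm]
  rfl

theorem sl2_tens (e : X × Y ≃ Z) (a : lp (fun _ : X => ℂ) 2) (b : lp (fun _ : Y => ℂ) 2) (x : X) :
    sl2 e (tens e a b) x = a x • b := by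
  ext y
  rw [sl2_apply, tens_apply]
  rfl

theorem inner_tens (e : X × Y ≃ Z) (a : lp (fun _ : X => ℂ) 2) (b : lp (fun _ : Y => ℂ) 2)
    (F : lp (fun _ : Z => ℂ) 2) :
    ⟪tens e a b, F⟫_ℂ = ∑' y, (starRingEnd ℂ) (b y) * ⟪a, sl1 e F y⟫_ℂ := by
  rw [lp.inner_eq_tsum]
  have hs : Summable fun z => ⟪tens e a b z, F z⟫_ℂ := lp.summable_inner _ _
  have h1 : ∑' z, ⟪tens e a b z, F z⟫_ℂ = ∑' p : Y × X, ⟪tens e a b (e (p.2, p.1)), F (e (p.2, p.1))⟫_ℂ := by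
    rw [← ((Equiv.prodComm Y X).trans e).tsum_eq]
    rfl
  have hs2 : Summable fun p : Y × X => ⟪tens e a b (e (p.2, p.1)), F (e (p.2, p.1))⟫_ℂ :=
    (Equiv.summable_iff ((Equiv.prodComm Y X).trans e)).2 hs
  rw [h1, hs2.tsum_prod]
  refine tsum_congr fun y => ?_
  rw [lp.inner_eq_tsum, ← tsum_mul_left]
  refine tsum_congr fun x => ?_
  rw [tens_apply, sl1_apply]
  simp only [RCLike.inner_apply, map_mul]
  ring

theorem norm_single1 {X : Type*} [DecidableEq X] (x : X) :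
    ‖(lp.single 2 x (1 : ℂ) : lp (fun _ : X => ℂ) 2)‖ = 1 := by
  rw [lp.norm_single (by norm_num)]
  simp

variable [DecidableEq X] [DecidableEq Y] [DecidableEq Z]

/-- **The distance of a basis vector to the tensor product of two closed subspaces.** -/
theorem infDist_tens (e : X × Y ≃ Z) (A : Submodule ℂ (lp (fun _ : X => ℂ) 2))
    (B : Submodule ℂ (lp (fun _ : Y => ℂ) 2)) [CompleteSpace A] [CompleteSpace B]
    (U : Submodule ℂ (lp (fun _ : Z => ℂ) 2))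
    (hU : ∀ F, F ∈ U ↔ (∀ y, sl1 e F y ∈ A) ∧ ∀ x, sl2 e F x ∈ B) (x0 : X) (y0 : Y) :
    1 - Metric.infDist (lp.single 2 (e (x0, y0)) (1 : ℂ) : lp (fun _ : Z => ℂ) 2) (U : Set _) ^ 2 =
      (1 - Metric.infDist (lp.single 2 x0 (1 : ℂ) : lp (fun _ : X => ℂ) 2) (A : Set _) ^ 2) *
      (1 - Metric.infDist (lp.single 2 y0 (1 : ℂ) : lp (fun _ : Y => ℂ) 2) (B : Set _) ^ 2) := by
  obtain ⟨a, haA, ha⟩ := exists_proj A (lp.single 2 x0 (1 : ℂ) : lp (fun _ : X => ℂ) 2)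
  obtain ⟨b, hbB, hb⟩ := exists_proj B (lp.single 2 y0 (1 : ℂ) : lp (fun _ : Y => ℂ) 2)
  have hin1 : ∀ f : lp (fun _ : X => ℂ) 2, ⟪(lp.single 2 x0 (1 : ℂ) : lp (fun _ : X => ℂ) 2), f⟫_ℂ = f x0 := by
    intro f
    rw [lp.inner_single_left]; simp
  have hin2 : ∀ f : lp (fun _ : Y => ℂ) 2, ⟪(lp.single 2 y0 (1 : ℂ) : lp (fun _ : Y => ℂ) 2), f⟫_ℂ = f y0 := by
    intro f
    rw [lp.inner_single_left]; simp
  have hin3 : ∀ f : lp (fun _ : Z => ℂ) 2,
      ⟪(lp.single 2 (e (x0, y0)) (1 : ℂ) : lp (fun _ : Z => ℂ) 2), f⟫_ℂ = f (e (x0, y0)) := by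
    intro f
    rw [lp.inner_single_left]; simp
  have ht : tens e a b ∈ U := by
    rw [hU]
    refine ⟨fun y => ?_, fun x => ?_⟩
    · rw [sl1_tens]; exact A.smul_mem _ haA
    · rw [sl2_tens]; exact B.smul_mem _ hbB
  have hproj : ∀ F ∈ U, ⟪tens e a b, F⟫_ℂ =
      ⟪(lp.single 2 (e (x0, y0)) (1 : ℂ) : lp (fun _ : Z => ℂ) 2), F⟫_ℂ := by
    intro F hF
    obtain ⟨h1, h2⟩ := (hU F).1 hF
    rw [inner_tens, hin3]
    have h3 : ∀ y, (starRingEnd ℂ) (b y) * ⟪a, sl1 e F y⟫_ℂ = ⟪b y, sl2 e F x0 y⟫_ℂ := by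
      intro y
      rw [ha _ (h1 y), hin1, sl1_apply, sl2_apply]
      simp only [RCLike.inner_apply]
      ring
    rw [tsum_congr h3, ← lp.inner_eq_tsum, hb _ (h2 x0), hin2, sl2_apply]
  have e1 := one_sub_infDist ht hproj (norm_single1 _)
  have e2 := one_sub_infDist haA ha (norm_single1 _)
  have e3 := one_sub_infDist hbB hb (norm_single1 _)
  rw [hin3, tens_apply] at e1
  rw [hin1] at e2
  rw [hin2] at e3
  rw [← e2, ← e3, ← Complex.ofReal_mul] at e1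
  exact Complex.ofReal_injective e1

end tens

end Pool.Agent.V7H23.SG
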