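import Pool.Agent.N309.PD.Op
import Pool.Agent.V7H23.SG.Dual
import Pool.Agent.V7H23.SG.Hil

set_option autoImplicit false
set_option linter.unusedSectionVars false

/-!
# Harmonic cochains of the product of two complexes
-/

open scoped InnerProductSpace InnerProduct ENNReal Matrix

universe u

namespace Pool.Agent.V7H23.SG

open Pool.Agent.W649.ZL Pool.Agent.N309.PD Pool.Agent.N309.LO

section general

variable {G : Type u} [Group G] {I J L : Type} [Fintype I] [DecidableEq I] [Fintype J]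
  [DecidableEq J] [Fintype L] [DecidableEq L]

theorem opM_val (A : Matrix I J (MonoidAlgebra ℂ G)) (F : EE G J) (k : I) (g : G) :
    opM A F (g, k) = ∑ j, conv (A k j) (fun x => F (x, j)) g := by
  rw [← cmp_apply, cmp_opM]
  unfold Pool.Agent.N309.PD.pr
  rw [sum_apply_EE]
  refine Finset.sum_congr rfl fun j _ => ?_
  rw [Lam_apply]
  unfold conv
  refine Finset.sum_congr rfl fun x _ => ?_
  rw [cmp_apply]

theorem Lam_sig_val (α : MonoidAlgebra ℂ G) (f : EE G Unit) (g : G) :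
    Lam (sig α) f (g, ()) = coconv α (fun x => f (x, ())) g := by
  rw [Lam_apply]
  unfold coconv
  apply Finset.sum_nbij' (fun k => k⁻¹) (fun k => k⁻¹)
  · intro k hk
    rw [Finsupp.mem_support_iff] at hk ⊢
    rw [sig_coeff] at hk
    intro h
    exact hk (by rw [h, map_zero])
  · intro k hk
    rw [Finsupp.mem_support_iff] at hk ⊢
    rw [sig_coeff, inv_inv]
    intro h
    exact hk ((map_eq_zero _).1 h)
  · intro k _
    exact inv_inv k
  · intro k _
    exact inv_inv k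
  · intro k _
    rw [sig_coeff]

theorem opM_adj_val (A : Matrix I J (MonoidAlgebra ℂ G)) (F : EE G I) (j : J) (g : G) :
    opM (adjM A) F (g, j) = ∑ k, coconv (A k j) (fun x => F (x, k)) g := by
  rw [← cmp_apply, cmp_opM]
  unfold Pool.Agent.N309.PD.pr
  rw [sum_apply_EE]
  refine Finset.sum_congr rfl fun k _ => ?_
  change Lam (sig (A k j)) (cmp k F) (g, ()) = _
  rw [Lam_sig_val]
  congr 1
  funext x
  rw [cmp_apply]

theorem ext_EE {f g : EE G J} (h : ∀ x j, f (x, j) = g (x, j)) : f = g := by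
  ext ⟨x, j⟩
  exact h x j

/-- harmonic functions -/
theorem mem_harmonic (C : Cx G) [DecidableEq C.ι] (F : EE G C.ι) :
    F ∈ harmonic C ↔ opM C.d F = 0 ∧ opM (adjM C.d) F = 0 := by
  constructor
  · rintro ⟨h1, h2⟩
    refine ⟨ext_EE fun x j => ?_, ext_EE fun x j => ?_⟩
    · rw [opM_val, h1]; rfl
    · rw [opM_adj_val, h2]; rfl
  · rintro ⟨h1, h2⟩
    refine ⟨fun i g => ?_, fun j g => ?_⟩
    · rw [← opM_val, h1]; rfl
    · rw [← opM_adj_val, h2]; rfl

/-- the space of harmonic functions -/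
noncomputable def hsp (M : Matrix J J (MonoidAlgebra ℂ G)) : Submodule ℂ (EE G J) :=
  LinearMap.ker (opM M : EE G J →ₗ[ℂ] EE G J) ⊓ LinearMap.ker (opM (adjM M) : EE G J →ₗ[ℂ] EE G J)

theorem mem_hsp (M : Matrix J J (MonoidAlgebra ℂ G)) (F : EE G J) :
    F ∈ hsp M ↔ opM M F = 0 ∧ opM (adjM M) F = 0 := Iff.rfl

theorem hsp_closed (M : Matrix J J (MonoidAlgebra ℂ G)) : IsClosed (hsp M : Set (EE G J)) :=
  (ContinuousLinearMap.isClosed_ker (opM M)).inter (ContinuousLinearMap.isClosed_ker (opM (adjM M)))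

theorem harmonic_eq (C : Cx G) [DecidableEq C.ι] : harmonic C = (hsp C.d : Set (EE G C.ι)) := by
  ext F
  exact mem_harmonic C F

theorem opM_mul (A : Matrix I J (MonoidAlgebra ℂ G)) (B : Matrix J L (MonoidAlgebra ℂ G))
    (F : EE G L) : opM (A * B) F = opM A (opM B F) := by
  apply ext_cmp
  intro i
  rw [cmp_opM, cmp_opM, pr_opM]
  rfl

theorem opM_add (A B : Matrix I J (MonoidAlgebra ℂ G)) (F : EE G J) :
    opM (A + B) F = opM A F + opM B F := by
  apply ext_cmp
  intro i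
  rw [cmp_opM, map_add, cmp_opM, cmp_opM, ← pr_add_left]
  rfl

theorem opM_zero (F : EE G J) : opM (0 : Matrix I J (MonoidAlgebra ℂ G)) F = 0 := by
  apply ext_cmp
  intro i
  rw [cmp_opM, map_zero]
  exact pr_zero_left F

theorem adjM_add (A B : Matrix I J (MonoidAlgebra ℂ G)) : adjM (A + B) = adjM A + adjM B := by
  ext1 j i
  exact sig_add _ _

/-- Operators `S`, `T` with `S* T + T S* = 0`. -/
theorem split (S T : EE G J →L[ℂ] EE G J)
    (h : ∀ F, ContinuousLinearMap.adjoint S (T F) + T (ContinuousLinearMap.adjoint S F) = 0)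
    (F : EE G J) (h1 : S F + T F = 0)
    (h2 : ContinuousLinearMap.adjoint S F + ContinuousLinearMap.adjoint T F = 0) :
    S F = 0 ∧ T F = 0 ∧ ContinuousLinearMap.adjoint S F = 0 ∧
      ContinuousLinearMap.adjoint T F = 0 := by
  set S' := ContinuousLinearMap.adjoint S with hS'
  set T' := ContinuousLinearMap.adjoint T with hT'
  have e1 : ⟪S F, T F⟫_ℂ + ⟪T' F, S' F⟫_ℂ = 0 := by
    have a1 : ⟪S F, T F⟫_ℂ = ⟪F, S' (T F)⟫_ℂ := by
      rw [hS', ContinuousLinearMap.adjoint_inner_right]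
    have a2 : ⟪T' F, S' F⟫_ℂ = ⟪F, T (S' F)⟫_ℂ := by
      rw [hT', ContinuousLinearMap.adjoint_inner_left]
    rw [a1, a2, ← inner_add_right, h, inner_zero_right]
  have e2 : ‖S F + T F‖ ^ 2 + ‖T' F + S' F‖ ^ 2 =
      (‖S F‖ ^ 2 + ‖T F‖ ^ 2) + (‖T' F‖ ^ 2 + ‖S' F‖ ^ 2) := by
    rw [norm_add_sq (𝕜 := ℂ), norm_add_sq (𝕜 := ℂ)]
    have : RCLike.re (⟪S F, T F⟫_ℂ) + RCLike.re (⟪T' F, S' F⟫_ℂ) = 0 := by
      rw [← map_add, e1, map_zero]
    linarith
  rw [h1, add_comm (T' F), h2] at e2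
  simp only [norm_zero] at e2
  have p1 := sq_nonneg ‖S F‖
  have p2 := sq_nonneg ‖T F‖
  have p3 := sq_nonneg ‖S' F‖
  have p4 := sq_nonneg ‖T' F‖
  have q : ∀ x : EE G J, ‖x‖ ^ 2 = 0 → x = 0 := fun x hx => by
    rwa [pow_eq_zero_iff two_ne_zero, norm_eq_zero] at hx
  refine ⟨q _ ?_, q _ ?_, q _ ?_, q _ ?_⟩ <;> nlinarith

end general

section prod

variable {G : Type u} [Group G] {H : Type u} [Group H] {ι κ : Type} [Fintype ι] [Fintype κ]
  [DecidableEq ι] [DecidableEq κ]

/-- first part -/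
noncomputable def P1 (κ : Type) [DecidableEq κ] (H : Type u) [Group H]
    (M : Matrix ι ι (MonoidAlgebra ℂ G)) :
    Matrix (ι × κ) (ι × κ) (MonoidAlgebra ℂ (G × H)) :=
  fun p q => if p.2 = q.2 then i1 (M p.1 q.1) else 0

/-- second part -/
noncomputable def P2 (deg : ι → ℕ) (G : Type u) [Group G] (N : Matrix κ κ (MonoidAlgebra ℂ H)) :
    Matrix (ι × κ) (ι × κ) (MonoidAlgebra ℂ (G × H)) :=
  fun p q => if p.1 = q.1 then (-1 : ℂ) ^ deg p.1 • i2 (N p.2 q.2) else 0

theorem pM_eq (deg : ι → ℕ) (M : Matrix ι ι (MonoidAlgebra ℂ G))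
    (N : Matrix κ κ (MonoidAlgebra ℂ H)) : pM deg M N = P1 κ H M + P2 deg G N := by
  ext1 p q
  change pM deg M N p q = P1 κ H M p q + P2 deg G N p q
  unfold pM P1 P2
  congr 1
  · by_cases h : p.2 = q.2
    · rw [if_pos h, if_pos h]
    · rw [if_neg h, if_neg h]
  · by_cases h : p.1 = q.1
    · rw [if_pos h, if_pos h]
    · rw [if_neg h, if_neg h]

theorem sig_single (g : G) (c : ℂ) : sig (MonoidAlgebra.single g c) =
    MonoidAlgebra.single g⁻¹ ((starRingEnd ℂ) c) := by
  classical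
  apply MonoidAlgebra.coeff_injective
  ext k
  rw [sig_coeff, MonoidAlgebra.coeff_single, MonoidAlgebra.coeff_single, Finsupp.single_apply,
    Finsupp.single_apply]
  by_cases h : g = k⁻¹
  · rw [if_pos h, if_pos (by rw [h, inv_inv])]
  · rw [if_neg h, if_neg (fun h2 => h (by rw [← h2, inv_inv])), map_zero]

theorem sig_i1 (α : MonoidAlgebra ℂ G) :
    sig (i1 α : MonoidAlgebra ℂ (G × H)) = i1 (sig α) := by
  induction α using MonoidAlgebra.induction_linear with
  | zero => rw [map_zero, sig_zero, sig_zero, map_zero]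
  | add a b ha hb => rw [map_add, sig_add, sig_add, map_add, ha, hb]
  | single g c =>
    rw [i1_single, sig_single, sig_single, i1_single]
    simp

theorem sig_i2 (α : MonoidAlgebra ℂ H) :
    sig (i2 α : MonoidAlgebra ℂ (G × H)) = i2 (sig α) := by
  induction α using MonoidAlgebra.induction_linear with
  | zero => rw [map_zero, sig_zero, sig_zero, map_zero]
  | add a b ha hb => rw [map_add, sig_add, sig_add, map_add, ha, hb]
  | single g c =>
    rw [i2_single, sig_single, sig_single, i2_single]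
    simp

theorem adj_P1 (M : Matrix ι ι (MonoidAlgebra ℂ G)) :
    adjM (P1 κ H M) = P1 κ H (adjM M) := by
  ext1 p q
  change sig (P1 κ H M q p) = P1 κ H (adjM M) p q
  unfold P1
  by_cases h : p.2 = q.2
  · rw [if_pos h.symm, if_pos h, sig_i1]; rfl
  · rw [if_neg (fun h2 => h h2.symm), if_neg h, sig_zero]

theorem adj_P2 (deg : ι → ℕ) (N : Matrix κ κ (MonoidAlgebra ℂ H)) :
    adjM (P2 deg G N) = P2 deg G (adjM N) := by
  ext1 p q
  change sig (P2 deg G N q p) = P2 deg G (adjM N) p q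
  unfold P2
  by_cases h : p.1 = q.1
  · rw [if_pos h.symm, if_pos h, sig_smul, sig_i2, h]
    simp only [map_pow, map_neg, map_one]
    rfl
  · rw [if_neg (fun h2 => h h2.symm), if_neg h, sig_zero]

/-- the anticommutation -/
theorem anti (deg : ι → ℕ) (M : Matrix ι ι (MonoidAlgebra ℂ G))
    (hM : ∀ i j, M i j ≠ 0 → deg i = deg j + 1) (N : Matrix κ κ (MonoidAlgebra ℂ H)) :
    adjM (P1 κ H M) * P2 deg G N + P2 deg G N * adjM (P1 κ H M) = 0 := by
  rw [adj_P1]
  ext1 p q
  change (P1 κ H (adjM M) * P2 deg G N) p q + (P2 deg G N * P1 κ H (adjM M)) p q = 0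
  rw [Matrix.mul_apply, Matrix.mul_apply]
  have e1 : ∑ r, P1 κ H (adjM M) p r * P2 deg G N r q =
      (-1 : ℂ) ^ deg q.1 • (i1 (adjM M p.1 q.1) * i2 (N p.2 q.2)) := by
    rw [Finset.sum_eq_single ((q.1, p.2) : ι × κ)]
    · unfold P1 P2
      rw [if_pos rfl, if_pos rfl, mul_smul_comm]
    · rintro ⟨r1, r2⟩ _ hr
      unfold P1 P2
      by_cases h1 : p.2 = r2
      · by_cases h2 : r1 = q.1
        · exact absurd (by rw [h1, h2]) hr
        · rw [if_neg h2, mul_zero]
      · rw [if_neg h1, zero_mul]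
    · intro h; exact absurd (Finset.mem_univ _) h
  have e2 : ∑ r, P2 deg G N p r * P1 κ H (adjM M) r q =
      (-1 : ℂ) ^ deg p.1 • (i1 (adjM M p.1 q.1) * i2 (N p.2 q.2)) := by
    rw [Finset.sum_eq_single ((p.1, q.2) : ι × κ)]
    · unfold P1 P2
      rw [if_pos rfl, if_pos rfl, smul_mul_assoc, comm]
    · rintro ⟨r1, r2⟩ _ hr
      unfold P1 P2
      by_cases h1 : p.1 = r1
      · by_cases h2 : r2 = q.2
        · exact absurd (by rw [h1, h2]) hr
        · rw [if_neg h2, mul_zero]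
      · rw [if_neg h1, zero_mul]
    · intro h; exact absurd (Finset.mem_univ _) h
  rw [e1, e2]
  by_cases h0 : M q.1 p.1 = 0
  · have : adjM M p.1 q.1 = 0 := by
      change sig (M q.1 p.1) = 0
      rw [h0, sig_zero]
    rw [this, map_zero, zero_mul, smul_zero, smul_zero, add_zero]
  · rw [hM _ _ h0, pow_succ]
    simp

/-- the index sets -/
def eq4 (G H : Type u) (ι κ : Type) : (G × ι) × (H × κ) ≃ (G × H) × (ι × κ) where
  toFun := fun p => ((p.1.1, p.2.1), (p.1.2, p.2.2))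
  invFun := fun q => ((q.1.1, q.2.1), (q.1.2, q.2.2))
  left_inv := fun _ => rfl
  right_inv := fun _ => rfl

theorem conv_add (α β : MonoidAlgebra ℂ G) (f : G → ℂ) (g : G) :
    conv (α + β) f g = conv α f g + conv β f g := by
  classical
  have h : ∀ γ : MonoidAlgebra ℂ G, conv γ f g = γ.coeff.sum fun k c => c * f (k⁻¹ * g) :=
    fun γ => rfl
  rw [h, h, h, MonoidAlgebra.coeff_add, Finsupp.sum_add_index (fun _ _ => zero_mul _)
    (fun _ _ _ _ => add_mul _ _ _)]

theorem conv_zero (f : G → ℂ) (g : G) : conv (0 : MonoidAlgebra ℂ G) f g = 0 := by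
  unfold conv
  simp

theorem conv_single (k : G) (c : ℂ) (f : G → ℂ) (g : G) :
    conv (MonoidAlgebra.single k c) f g = c * f (k⁻¹ * g) := by
  have h : ∀ γ : MonoidAlgebra ℂ G, conv γ f g = γ.coeff.sum fun k c => c * f (k⁻¹ * g) :=
    fun γ => rfl
  rw [h, MonoidAlgebra.coeff_single, Finsupp.sum_single_index (zero_mul _)]

theorem conv_smul (c : ℂ) (α : MonoidAlgebra ℂ G) (f : G → ℂ) (g : G) :
    conv (c • α) f g = c * conv α f g := by
  induction α using MonoidAlgebra.induction_linear with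
  | zero => rw [smul_zero, conv_zero, mul_zero]
  | add a b ha hb => rw [smul_add, conv_add, conv_add, ha, hb, mul_add]
  | single k e => rw [MonoidAlgebra.smul_single, conv_single, conv_single, smul_eq_mul, mul_assoc]

theorem conv_i1 (α : MonoidAlgebra ℂ G) (f : G × H → ℂ) (g : G) (h : H) :
    conv (i1 α) f (g, h) = conv α (fun x => f (x, h)) g := by
  induction α using MonoidAlgebra.induction_linear with
  | zero => rw [map_zero, conv_zero, conv_zero]
  | add a b ha hb => rw [map_add, conv_add, conv_add, ha, hb]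
  | single k e =>
    rw [i1_single, conv_single, conv_single]
    simp

theorem conv_i2 (α : MonoidAlgebra ℂ H) (f : G × H → ℂ) (g : G) (h : H) :
    conv (i2 α) f (g, h) = conv α (fun x => f (g, x)) h := by
  induction α using MonoidAlgebra.induction_linear with
  | zero => rw [map_zero, conv_zero, conv_zero]
  | add a b ha hb => rw [map_add, conv_add, conv_add, ha, hb]
  | single k e =>
    rw [i2_single, conv_single, conv_single]
    simp

theorem P1_val (M : Matrix ι ι (MonoidAlgebra ℂ G)) (F : EE (G × H) (ι × κ)) (g : G) (h : H)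
    (i : ι) (j : κ) : opM (P1 κ H M) F ((g, h), (i, j)) =
      opM M (sl1 (eq4 G H ι κ) F (h, j)) (g, i) := by
  rw [opM_val, opM_val, Fintype.sum_prod_type]
  refine Finset.sum_congr rfl fun i' _ => ?_
  rw [Finset.sum_eq_single j]
  · unfold P1
    rw [if_pos rfl, conv_i1]
    rfl
  · intro j' _ hj
    unfold P1
    rw [if_neg (fun h => hj h.symm), conv_zero]
  · intro h; exact absurd (Finset.mem_univ _) h

theorem P2_val (deg : ι → ℕ) (N : Matrix κ κ (MonoidAlgebra ℂ H)) (F : EE (G × H) (ι × κ)) (g : G)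
    (h : H) (i : ι) (j : κ) : opM (P2 deg G N) F ((g, h), (i, j)) =
      (-1 : ℂ) ^ deg i * opM N (sl2 (eq4 G H ι κ) F (g, i)) (h, j) := by
  rw [opM_val, opM_val, Fintype.sum_prod_type, Finset.sum_eq_single i]
  · rw [Finset.mul_sum]
    refine Finset.sum_congr rfl fun j' _ => ?_
    unfold P2
    rw [if_pos rfl, conv_smul, conv_i2]
    rfl
  · intro i' _ hi
    apply Finset.sum_eq_zero
    intro j' _
    unfold P2
    rw [if_neg (fun h => hi h.symm), conv_zero]
  · intro h; exact absurd (Finset.mem_univ _) h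

theorem P1_zero (M : Matrix ι ι (MonoidAlgebra ℂ G)) (F : EE (G × H) (ι × κ)) :
    opM (P1 κ H M) F = 0 ↔ ∀ y, opM M (sl1 (eq4 G H ι κ) F y) = 0 := by
  constructor
  · rintro h ⟨y, j⟩
    apply ext_EE
    intro g i
    rw [← P1_val, h]
    rfl
  · intro h
    apply ext_EE
    rintro ⟨g, y⟩ ⟨i, j⟩
    rw [P1_val, h]
    rfl

theorem P2_zero (deg : ι → ℕ) (N : Matrix κ κ (MonoidAlgebra ℂ H)) (F : EE (G × H) (ι × κ)) :
    opM (P2 deg G N) F = 0 ↔ ∀ x, opM N (sl2 (eq4 G H ι κ) F x) = 0 := by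
  constructor
  · rintro h ⟨g, i⟩
    apply ext_EE
    intro y j
    have h1 := P2_val deg N F g y i j
    rw [h] at h1
    have h2 : (-1 : ℂ) ^ deg i ≠ 0 := pow_ne_zero _ (by norm_num)
    have h3 : (-1 : ℂ) ^ deg i * opM N (sl2 (eq4 G H ι κ) F (g, i)) (y, j) = 0 := h1.symm
    exact (mul_eq_zero.1 h3).resolve_left h2
  · intro h
    apply ext_EE
    rintro ⟨g, y⟩ ⟨i, j⟩
    rw [P2_val, h]
    change (-1 : ℂ) ^ deg i * 0 = 0
    rw [mul_zero]

/-- **The harmonic functions of the product.** -/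
theorem mem_hsp_prod (deg : ι → ℕ) (M : Matrix ι ι (MonoidAlgebra ℂ G))
    (hM : ∀ i j, M i j ≠ 0 → deg i = deg j + 1) (N : Matrix κ κ (MonoidAlgebra ℂ H))
    (F : EE (G × H) (ι × κ)) : F ∈ hsp (pM deg M N) ↔
      (∀ y, sl1 (eq4 G H ι κ) F y ∈ hsp M) ∧ ∀ x, sl2 (eq4 G H ι κ) F x ∈ hsp N := by
  have hadj : adjM (P1 κ H M + P2 deg G N) = P1 κ H (adjM M) + P2 deg G (adjM N) := by
    rw [adjM_add, adj_P1, adj_P2]
  rw [mem_hsp, pM_eq, hadj, opM_add, opM_add]
  constructor
  · rintro ⟨h1, h2⟩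
    obtain ⟨a1, a2, a3, a4⟩ := split (opM (P1 κ H M)) (opM (P2 deg G N)) (fun F => by
      rw [opM_adj, ← opM_mul, ← opM_mul, ← opM_add, anti deg M hM N, opM_zero]) F h1 (by
      rw [opM_adj, opM_adj, adj_P1, adj_P2]; exact h2)
    rw [opM_adj, adj_P1] at a3
    rw [opM_adj, adj_P2] at a4
    exact ⟨fun y => ⟨(P1_zero M F).1 a1 y, (P1_zero _ F).1 a3 y⟩,
      fun x => ⟨(P2_zero deg N F).1 a2 x, (P2_zero deg _ F).1 a4 x⟩⟩
  · rintro ⟨h1, h2⟩
    have a1 := (P1_zero M F).2 fun y => (h1 y).1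
    have a2 := (P1_zero (adjM M) F).2 fun y => (h1 y).2
    have a3 := (P2_zero deg N F).2 fun x => (h2 x).1
    have a4 := (P2_zero deg (adjM N) F).2 fun x => (h2 x).2
    exact ⟨by rw [a1, a3, add_zero], by rw [a2, a4, add_zero]⟩

end prod

end Pool.Agent.V7H23.SG
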