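import Pool.Agent.V7H23.SG.Form
import Pool.Agent.V7H23.SG.Dual
import Pool.Agent.V7H23.SG.Anti

set_option autoImplicit false

/-!
# Zero–one laws for the `L²`-Betti numbers of duality complexes over a product-closed class
-/

open Polynomial

universe u

namespace Pool.Agent.V7H23.SG

variable {𝒞 : ∀ (G : Type u) [Group G], Prop}

theorem exists_pow (h𝒞 : ∀ (G H : Type u) [Group G] [Group H], 𝒞 G → 𝒞 H → 𝒞 (G × H))
    {G : Type u} [Group G] (hG : 𝒞 G) {n : ℕ} {C : Cx G} (hC : IsDuality n C) (N : ℕ) :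
    ∃ (G' : Type u) (_ : Group G') (C' : Cx G'), 𝒞 G' ∧ IsDuality ((N + 1) * n) C' ∧
      pol C' ((N + 1) * n) = pol C n ^ (N + 1) := by
  induction N with
  | zero =>
    refine ⟨G, inferInstance, C, hG, ?_, ?_⟩
    · simpa using hC
    · simp
  | succ N ih =>
    obtain ⟨G', i', C', h1, h2, h3⟩ := ih
    have e : (N + 1 + 1) * n = (N + 1) * n + n := by ring
    refine ⟨G' × G, inferInstance, C'.prod C, h𝒞 _ _ h1 hG, ?_, ?_⟩
    · rw [e]
      exact h2.prod hC
    · rw [e, pol_prod h2.length hC.length, h3, pow_succ (pol C n) (N + 1)]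

theorem pol_eval {G : Type u} [Group G] (C : Cx G) (n : ℕ) (x : ℝ) :
    (pol C n).eval x = ∑ k ∈ Finset.range (n + 1), betti C k * x ^ k := by
  unfold pol
  rw [eval_finsetSum]
  refine Finset.sum_congr rfl fun k _ => ?_
  simp

theorem pol_NN {G : Type u} [Group G] {n : ℕ} {C : Cx G} (h : ∀ i, C.deg i ≤ n) :
    NN (pol C n) := by
  intro k
  rw [pol_coeff h]
  exact betti_nonneg C k

theorem extract (h𝒞 : ∀ (G H : Type u) [Group G] [Group H], 𝒞 G → 𝒞 H → 𝒞 (G × H))
    {P : ℝ → ℕ → (ℕ → ℝ) → Prop} (hP : Asymptotically 𝒞 P)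
    {G : Type u} [Group G] (hG : 𝒞 G) {n : ℕ} {C : Cx G} (hC : IsDuality n C) (hn : 0 < n)
    {ε : ℝ} (hε : 0 < ε) : ∃ (N : ℕ) (b : ℕ → ℝ), 0 < N ∧ P ε (N * n) b ∧
      (∀ k, b k = ((pol C n) ^ N).coeff k) ∧
      ∀ x : ℝ, ∑ k ∈ Finset.range (N * n + 1), b k * x ^ k = (pol C n).eval x ^ N := by
  obtain ⟨m, hm, ⟨N, hN⟩, h⟩ := hP n hn ε hε
  have hN0 : N ≠ 0 := by
    rintro rfl
    omega
  obtain ⟨M, rfl⟩ := Nat.exists_eq_succ_of_ne_zero hN0
  obtain ⟨G', i', C', h1, h2, h3⟩ := exists_pow h𝒞 hG hC M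
  have e : m = (M + 1) * n := by rw [hN, mul_comm]
  subst e
  refine ⟨M + 1, betti C', by omega, h G' h1 C' h2, fun k => ?_, fun x => ?_⟩
  · rw [← h3, pol_coeff h2.length]
  · rw [← pol_eval, h3, eval_pow]

section parts

variable {G : Type u} [Group G] {n : ℕ} {C : Cx G}

theorem pos_of {hC : IsDuality n C} {i : ℕ} (hi : betti C i ≠ 0) (h2 : 2 * i ≠ n) : 0 < n := by
  rcases Nat.eq_zero_or_pos n with h | h
  · subst h
    exact absurd (betti_large hC.length (by omega : 0 < i)) hi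
  · exact h

theorem one_le_dist {i n : ℕ} (h : 2 * i ≠ n) (N : ℕ) :
    (N : ℝ) ≤ |2 * ((N * i : ℕ) : ℝ) - ((N * n : ℕ) : ℝ)| := by
  have h1 : 2 * ((N * i : ℕ) : ℝ) - ((N * n : ℕ) : ℝ) = (N : ℝ) * (((2 * i : ℤ) - (n : ℤ) : ℤ) : ℝ) := by
    push_cast
    ring
  rw [h1, abs_mul, Nat.abs_cast]
  have h2 : (1 : ℝ) ≤ |(((2 * i : ℤ) - (n : ℤ) : ℤ) : ℝ)| := by
    rw [← Int.cast_abs]
    have : (1 : ℤ) ≤ |(2 * i : ℤ) - (n : ℤ)| := Int.one_le_abs (by omega)
    exact_mod_cast this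
  nlinarith [Nat.cast_nonneg (α := ℝ) N]

/-- the window -/
theorem window (h𝒞 : ∀ (G H : Type u) [Group G] [Group H], 𝒞 G → 𝒞 H → 𝒞 (G × H))
    (hP : Asymptotically 𝒞 fun ε m b => ∀ i : ℕ, ε * m < |2 * (i : ℝ) - m| →
      b i ≤ ε ^ m * ∑ j ∈ Finset.range (m + 1), b j) :
    Always 𝒞 fun n b => ∀ i : ℕ, 2 * i ≠ n → b i = 0 := by
  intro G _ hG n C hC i hi
  by_contra hne
  have hn : 0 < n := pos_of (hC := hC) hne hi
  have hn' : (0 : ℝ) < n := by exact_mod_cast hn
  set p := pol C n with hp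
  have hNN : NN p := pol_NN hC.length
  have hpi : p.coeff i = betti C i := pol_coeff hC.length i
  have hpos : 0 < p.coeff i := by
    rw [hpi]
    exact lt_of_le_of_ne (betti_nonneg C i) (Ne.symm hne)
  have hle := hNN.coeff_le i
  set q := p.eval 1 with hq
  have hqp : 0 < q := lt_of_lt_of_le hpos hle
  obtain ⟨ε, hε, hε1, hε2⟩ : ∃ ε : ℝ, 0 < ε ∧ ε ≤ 1 / (2 * n) ∧ ε ≤ p.coeff i / (2 * q) :=
    ⟨min (1 / (2 * n)) (p.coeff i / (2 * q)), lt_min (by positivity) (by positivity),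
      min_le_left _ _, min_le_right _ _⟩
  obtain ⟨N, b, hN, h1, h2, h3⟩ := extract h𝒞 hP hG hC hn hε
  have hN' : (0 : ℝ) < N := by exact_mod_cast hN
  have h4 := h1 (N * i) (by
    refine lt_of_lt_of_le ?_ (one_le_dist hi N)
    push_cast
    rw [le_div_iff₀ (by positivity)] at hε1
    nlinarith)
  have h5 : ∑ j ∈ Finset.range (N * n + 1), b j = q ^ N := by
    have := h3 1
    simpa using this
  rw [h2, h5] at h4
  have h6 := coeff_pow_ge hNN i N
  have hε3 : ε ≤ 1 := by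
    refine hε1.trans ?_
    rw [div_le_one (by positivity)]
    have : (1 : ℝ) ≤ n := by exact_mod_cast hn
    linarith
  have h7 : ε ^ (N * n) ≤ ε ^ N := pow_le_pow_of_le_one hε.le hε3 (Nat.le_mul_of_pos_right N hn)
  have h8 : p.coeff i ^ N ≤ (p.coeff i / 2) ^ N := by
    calc p.coeff i ^ N ≤ ε ^ (N * n) * q ^ N := h6.trans h4
      _ ≤ ε ^ N * q ^ N := mul_le_mul_of_nonneg_right h7 (by positivity)
      _ = (ε * q) ^ N := by rw [mul_pow]
      _ ≤ (p.coeff i / 2) ^ N := by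
        refine pow_le_pow_left₀ (by positivity) ?_ N
        rw [le_div_iff₀ (by positivity)] at hε2
        linarith
  have h9 := (pow_le_pow_iff_left₀ hpos.le (by positivity) hN.ne').1 h8
  linarith

/-- the number of degrees -/
theorem degrees (h𝒞 : ∀ (G H : Type u) [Group G] [Group H], 𝒞 G → 𝒞 H → 𝒞 (G × H))
    (hP : Asymptotically 𝒞 fun ε m b => ({k | b k ≠ 0}.ncard : ℝ) ≤ ε * m) :
    Always 𝒞 fun _ b => ∀ i j : ℕ, b i ≠ 0 → b j ≠ 0 → i = j := by
  intro G _ hG n C hC i j hi hj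
  by_contra hij
  have hn : 0 < n := by
    rcases Nat.eq_zero_or_pos n with h | h
    · subst h
      rcases Nat.eq_zero_or_pos i with h1 | h1
      · have : 0 < j := by omega
        exact absurd (betti_large hC.length this) hj
      · exact absurd (betti_large hC.length h1) hi
    · exact h
  have hn' : (0 : ℝ) < n := by exact_mod_cast hn
  obtain ⟨N, b, hN, h1, h2, h3⟩ := extract h𝒞 hP hG hC hn (ε := 1 / n) (by positivity)
  have h4 := support_pow (pol_NN hC.length) hij (by rwa [pol_coeff hC.length])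
    (by rwa [pol_coeff hC.length]) N
  have h5 : {k | b k ≠ 0} = {k | (pol C n ^ N).coeff k ≠ 0} := by
    ext k
    simp only [Set.mem_ofPred_eq, h2]
  rw [h5] at h1
  have h6 : ((N : ℝ) + 1) ≤ ({k | (pol C n ^ N).coeff k ≠ 0}.ncard : ℝ) := by exact_mod_cast h4
  have h7 : 1 / (n : ℝ) * ((N * n : ℕ) : ℝ) = N := by
    push_cast
    field_simp
  rw [h7] at h1
  linarith

/-- the largest `L²`-Betti number -/
theorem largest (h𝒞 : ∀ (G H : Type u) [Group G] [Group H], 𝒞 G → 𝒞 H → 𝒞 (G × H))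
    (hP : Asymptotically 𝒞 fun ε m b => ∃ k : ℕ,
      ∑ j ∈ Finset.range (m + 1), b j ≤ ε * √m * b k) :
    Always 𝒞 fun _ b => ∀ i j : ℕ, b i ≠ 0 → b j ≠ 0 → i = j := by
  intro G _ hG n C hC i j hi hj
  by_contra hij
  have hn : 0 < n := by
    rcases Nat.eq_zero_or_pos n with h | h
    · subst h
      rcases Nat.eq_zero_or_pos i with h1 | h1
      · have : 0 < j := by omega
        exact absurd (betti_large hC.length this) hj
      · exact absurd (betti_large hC.length h1) hi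
    · exact h
  have hn' : (0 : ℝ) < n := by exact_mod_cast hn
  have hNN : NN (pol C n) := pol_NN hC.length
  have hi' : (pol C n).coeff i ≠ 0 := by rwa [pol_coeff hC.length]
  have hj' : (pol C n).coeff j ≠ 0 := by rwa [pol_coeff hC.length]
  obtain ⟨K, hK, hKb⟩ := pow_coeff_le hNN hij hi' hj'
  have hsn : 0 < √(n : ℝ) := Real.sqrt_pos.2 hn'
  obtain ⟨N, b, hN, ⟨k, hk⟩, h2, h3⟩ :=
    extract h𝒞 hP hG hC hn (ε := 1 / (2 * K * √n)) (by positivity)
  have hN' : (0 : ℝ) < N := by exact_mod_cast hN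
  have h5 : ∑ j ∈ Finset.range (N * n + 1), b j = (pol C n).eval 1 ^ N := by
    have := h3 1
    simpa using this
  rw [h5, h2] at hk
  have hq : 0 < (pol C n).eval 1 :=
    lt_of_lt_of_le (lt_of_le_of_ne (hNN i) hi'.symm) (hNN.coeff_le i)
  set q := (pol C n).eval 1 with hqd
  have hqN : 0 < q ^ N := pow_pos hq N
  have h6 : √(((N * n : ℕ) : ℝ)) = √(N : ℝ) * √(n : ℝ) := by
    push_cast
    rw [Real.sqrt_mul hN'.le]
  have h7 : √(N : ℝ) ≤ √((N : ℝ) + 1) := Real.sqrt_le_sqrt (by linarith)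
  have h8 : 0 < √((N : ℝ) + 1) := Real.sqrt_pos.2 (by linarith)
  have h9 : 1 / (2 * K * √(n : ℝ)) * √(((N * n : ℕ) : ℝ)) * ((pol C n ^ N).coeff k) ≤ q ^ N / 2 := by
    rw [h6]
    have h10 : 1 / (2 * K * √(n : ℝ)) * (√(N : ℝ) * √(n : ℝ)) = √(N : ℝ) / (2 * K) := by
      field_simp
    rw [h10]
    calc √(N : ℝ) / (2 * K) * ((pol C n ^ N).coeff k) ≤
          √((N : ℝ) + 1) / (2 * K) * (K / √((N : ℝ) + 1) * q ^ N) := by
          refine mul_le_mul ?_ (hKb N k) ((hNN.pow N) k) (by positivity)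
          exact div_le_div_of_nonneg_right h7 (by positivity)
      _ = q ^ N / 2 := by field_simp
  linarith

/-- a large `L²`-Betti number near the middle -/
theorem middle (h𝒞 : ∀ (G H : Type u) [Group G] [Group H], 𝒞 G → 𝒞 H → 𝒞 (G × H))
    (hP : Asymptotically 𝒞 fun ε m b => ∃ k : ℕ, |2 * (k : ℝ) - m| ≤ ε * m ∧
      ∑ j ∈ Finset.range (m + 1), b j ≤ ε * √m * b k) :
    Always 𝒞 fun n b => ∀ i : ℕ, 2 * i ≠ n → b i = 0 := by
  have hone := largest h𝒞 (fun n hn ε hε => by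
    obtain ⟨m, h1, h2, h3⟩ := hP n hn ε hε
    refine ⟨m, h1, h2, fun G _ hG C hC => ?_⟩
    obtain ⟨k, _, h4⟩ := h3 G hG C hC
    exact ⟨k, h4⟩)
  intro G _ hG n C hC i hi
  by_contra hne
  have hn : 0 < n := pos_of (hC := hC) hne hi
  have hn' : (0 : ℝ) < n := by exact_mod_cast hn
  have hNN : NN (pol C n) := pol_NN hC.length
  have hone' := hone G hG n C hC
  have hpi : (pol C n).coeff i = betti C i := pol_coeff hC.length i
  obtain ⟨c, hc⟩ : ∃ c, c = betti C i := ⟨_, rfl⟩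
  have hc0 : c ≠ 0 := hc ▸ hne
  have hmon : pol C n = Polynomial.C c * X ^ i := by
    ext k
    rw [coeff_C_mul, coeff_X_pow, pol_coeff hC.length]
    by_cases hki : k = i
    · rw [if_pos hki, hki, hc, mul_one]
    · rw [if_neg hki, mul_zero]
      by_contra h
      exact hki (hone' k i h hne)
  obtain ⟨N, b, hN, ⟨k, hk, hk'⟩, h2, h3⟩ :=
    extract h𝒞 hP hG hC hn (ε := 1 / (2 * n)) (by positivity)
  have hN' : (0 : ℝ) < N := by exact_mod_cast hN
  have h5 : ∑ j ∈ Finset.range (N * n + 1), b j = (pol C n).eval 1 ^ N := by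
    have := h3 1
    simpa using this
  have hcpos : 0 < c := by
    rw [hc]
    exact lt_of_le_of_ne (betti_nonneg C i) (Ne.symm hne)
  have hbk : b k = if k = N * i then c ^ N else 0 := by
    rw [h2, hmon, mul_pow, ← C_pow, ← pow_mul, coeff_C_mul, coeff_X_pow, mul_comm i N]
    split_ifs <;> simp
  rw [h5, hmon] at hk'
  have h6 : (Polynomial.C c * X ^ i : ℝ[X]).eval 1 = c := by simp
  rw [h6, hbk] at hk'
  have hcN : 0 < c ^ N := pow_pos hcpos N
  by_cases hkN : k = N * i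
  · rw [hkN] at hk
    have h7 := one_le_dist hi N
    have h8 : 1 / (2 * (n : ℝ)) * ((N * n : ℕ) : ℝ) = N / 2 := by
      push_cast
      field_simp
    rw [h8] at hk
    linarith
  · rw [if_neg hkN, mul_zero] at hk'
    linarith

/-- the Euler characteristic -/
theorem euler (h𝒞 : ∀ (G H : Type u) [Group G] [Group H], 𝒞 G → 𝒞 H → 𝒞 (G × H))
    (hP : Asymptotically 𝒞 fun ε m b => ∑ j ∈ Finset.range (m + 1), b j ≤
      (1 + ε) ^ m * |∑ j ∈ Finset.range (m + 1), (-1) ^ j * b j|) :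
    Always 𝒞 fun _ b => ∀ i j : ℕ, b i ≠ 0 → b j ≠ 0 → Even (i + j) := by
  intro G _ hG n C hC i j hi hj
  rcases Nat.eq_zero_or_pos n with hn | hn
  · subst hn
    have h1 : i = 0 := by
      by_contra h
      exact hi (betti_large hC.length (by omega))
    have h2 : j = 0 := by
      by_contra h
      exact hj (betti_large hC.length (by omega))
    subst h1 h2
    exact ⟨0, rfl⟩
  have hNN : NN (pol C n) := pol_NN hC.length
  have hq : 0 ≤ (pol C n).eval 1 := hNN.eval_nonneg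
  have key : ∀ ε : ℝ, 0 < ε → (pol C n).eval 1 ≤ (1 + ε) ^ n * |(pol C n).eval (-1)| := by
    intro ε hε
    obtain ⟨N, b, hN, h1, h2, h3⟩ := extract h𝒞 hP hG hC hn hε
    have h4 := h3 1
    have h5 := h3 (-1)
    simp only [one_pow, mul_one] at h4
    have h6 : ∑ j ∈ Finset.range (N * n + 1), (-1) ^ j * b j = (pol C n).eval (-1) ^ N := by
      rw [← h5]
      exact Finset.sum_congr rfl fun _ _ => mul_comm _ _
    rw [h4, h6, abs_pow, mul_comm N n, pow_mul, ← mul_pow] at h1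
    exact (pow_le_pow_iff_left₀ hq (by positivity) hN.ne').1 h1
  have hlim : (pol C n).eval 1 ≤ |(pol C n).eval (-1)| := by
    have ht : Filter.Tendsto (fun ε : ℝ => (1 + ε) ^ n * |(pol C n).eval (-1)|)
        (nhdsWithin 0 (Set.Ioi 0)) (nhds ((1 + 0) ^ n * |(pol C n).eval (-1)|)) := by
      refine Filter.Tendsto.mono_left ?_ nhdsWithin_le_nhds
      exact (Continuous.tendsto (by fun_prop) 0)
    have := ge_of_tendsto ht (by
      filter_upwards [self_mem_nhdsWithin] with ε hε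
      exact key ε hε)
    simpa using this
  obtain ⟨s, hs, hs'⟩ : ∃ s : ℝ, (s = 1 ∨ s = -1) ∧
      |(pol C n).eval (-1)| = s * (pol C n).eval (-1) := by
    rcases le_total 0 ((pol C n).eval (-1)) with h | h
    · exact ⟨1, Or.inl rfl, by rw [abs_of_nonneg h, one_mul]⟩
    · exact ⟨-1, Or.inr rfl, by rw [abs_of_nonpos h, neg_one_mul]⟩
  have hsum : ∑ k ∈ Finset.range (n + 1), betti C k * (1 - s * (-1) ^ k) ≤ 0 := by
    have h1 := pol_eval C n 1
    have h2 := pol_eval C n (-1)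
    simp only [one_pow, mul_one] at h1
    have h3 : ∑ k ∈ Finset.range (n + 1), betti C k * (1 - s * (-1) ^ k) =
        (pol C n).eval 1 - s * (pol C n).eval (-1) := by
      rw [h1, h2, Finset.mul_sum, ← Finset.sum_sub_distrib]
      exact Finset.sum_congr rfl fun _ _ => by ring
    rw [h3]
    linarith
  have hterm : ∀ k, 0 ≤ betti C k * (1 - s * (-1) ^ k) := by
    intro k
    refine mul_nonneg (betti_nonneg C k) ?_
    rcases hs with rfl | rfl <;> rcases neg_one_pow_eq_or ℝ k with h | h <;> rw [h] <;> norm_num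
  have hzero : ∀ k ≤ n, betti C k * (1 - s * (-1) ^ k) = 0 := by
    intro k hk
    have h1 := le_antisymm hsum (Finset.sum_nonneg fun k _ => hterm k)
    rw [Finset.sum_eq_zero_iff_of_nonneg fun k _ => hterm k] at h1
    exact h1 k (Finset.mem_range.2 (by omega))
  have hpar : ∀ k, betti C k ≠ 0 → s * (-1) ^ k = 1 := by
    intro k hk
    have hkn : k ≤ n := by
      by_contra h
      exact hk (betti_large hC.length (by omega))
    rcases mul_eq_zero.1 (hzero k hkn) with h | h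
    · exact absurd h hk
    · linarith
  have h1 := hpar i hi
  have h2 := hpar j hj
  have h3 : ((-1 : ℝ)) ^ (i + j) = 1 := by
    rw [pow_add]
    rcases hs with rfl | rfl
    · rw [one_mul] at h1 h2
      rw [h1, h2, one_mul]
    · have h1' : (-1 : ℝ) ^ i = -1 := by linarith
      have h2' : (-1 : ℝ) ^ j = -1 := by linarith
      rw [h1', h2']
      norm_num
  rcases Nat.even_or_odd (i + j) with h | h
  · exact h
  · rw [h.neg_one_pow] at h3
    norm_num at h3

end parts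

end Pool.Agent.V7H23.SG
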